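import Pool.Agent.H319Z.Stir.Clique

/-! Cycles of single bars through a distinguished vertex of a clique. -/

set_option maxHeartbeats 400000

open MeasureTheory ProbabilityTheory Set Relation

namespace Pool.Agent.H319Z.Stir

variable {V W : Type} [Fintype W] [DecidableEq W] {φ : W → V} {T : ℝ} {Q2 Q4 : Set ℝ}

/-- Allowed bar times along the cycle. -/
def Iv (T : ℝ) (Q2 Q4 : Set ℝ) {k : ℕ} (i : ZMod (k + 3)) : Set ℝ :=
  if i = 0 then Q2 else if i = -1 then Q4 else Iic T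

/-- The cycle `c` consists of single bars and everything around it is trivial. -/
def Ch (φ : W → V) (T : ℝ) (Q2 Q4 : Set ℝ) {k : ℕ} (c : ZMod (k + 3) → W) :
    Set (Sym2 V → ℕ → ℝ) :=
  {ω | (∀ i, ω s(φ (c i), φ (c (i + 1))) ∈ Sg T (Iv T Q2 Q4 i)) ∧ ω ∉ Bad φ T (range c) ∧
    ∀ i j, ¬ ((i ≠ j ∧ j ≠ i + 1 ∧ i ≠ j + 1) ∧ ω s(φ (c i), φ (c j)) ∈ Op T)}

lemma zm_ne {k : ℕ} {i : ℕ} (h0 : 0 < i) (h : i < k + 3) : ((i : ℕ) : ZMod (k + 3)) ≠ 0 := by
  rw [Ne, ZMod.natCast_eq_zero_iff]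
  exact fun h' => absurd (Nat.le_of_dvd h0 h') (by omega)

lemma zm_one {k : ℕ} : (1 : ZMod (k + 3)) ≠ 0 := by
  simpa using zm_ne (k := k) (i := 1) (by omega) (by omega)

lemma zm_two {k : ℕ} : (1 + 1 : ZMod (k + 3)) ≠ 0 := by
  have := zm_ne (k := k) (i := 1 + 1) (by omega) (by omega)
  rwa [Nat.cast_add, Nat.cast_one] at this

lemma zm_last {k : ℕ} : ((k + 2 : ℕ) : ZMod (k + 3)) = -1 := by
  have := ZMod.natCast_self (k + 3)
  push_cast at this ⊢
  linear_combination this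

lemma Iv_sub (h2 : Q2 ⊆ Iic T) (h4 : Q4 ⊆ Iic T) {k : ℕ} (i : ZMod (k + 3)) :
    Iv T Q2 Q4 i ⊆ Iic T := by
  unfold Iv; split_ifs <;> simp [*]

lemma Iv_meas (m2 : MeasurableSet Q2) (m4 : MeasurableSet Q4) {k : ℕ} (i : ZMod (k + 3)) :
    MeasurableSet (Iv T Q2 Q4 i) := by
  unfold Iv; split_ifs <;> simp [*]

omit [Fintype W] [DecidableEq W] in
lemma Ch.op (h2 : Q2 ⊆ Iic T) (h4 : Q4 ⊆ Iic T) {k : ℕ} {c : ZMod (k + 3) → W}
    {ω : Sym2 V → ℕ → ℝ} (h : ω ∈ Ch φ T Q2 Q4 c) (i : ZMod (k + 3)) :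
    ω s(φ (c i), φ (c (i + 1))) ∈ Op T := Iv_sub h2 h4 i (h.1 i).1

omit [Fintype W] [DecidableEq W] in
lemma Ch.int {k : ℕ} {c : ZMod (k + 3) → W} {ω : Sym2 V → ℕ → ℝ} (h : ω ∈ Ch φ T Q2 Q4 c)
    {i j : ZMod (k + 3)} (hij : i ≠ j) (ho : ω s(φ (c i), φ (c j)) ∈ Op T) :
    j = i + 1 ∨ i = j + 1 := by
  by_contra hn
  push Not at hn
  exact h.2.2 i j ⟨⟨hij, hn.1, hn.2⟩, ho⟩

lemma succ_ne {k : ℕ} (i : ZMod (k + 3)) : i ≠ i + 1 := fun h => zm_one (by linear_combination -h)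

omit [DecidableEq W] in
lemma dep_Ch (m2 : MeasurableSet Q2) (m4 : MeasurableSet Q4) {k : ℕ} {c : ZMod (k + 3) → W}
    (hc : Function.Injective c) : Dep (EdIn φ univ) (Ch φ T Q2 Q4 c) := by
  refine Dep.and (Dep.all fun i => Dep.atom (mem_EdIn φ (mem_univ _) (mem_univ _) (hc.ne (succ_ne i)))
    (meas_Sg T (Iv_meas m2 m4 i))) (Dep.and (Dep.not ((dep_Bad _).mono ?_).mem)
    (Dep.all fun i => Dep.all fun j => Dep.not (Dep.guard fun h =>
      Dep.atom (mem_EdIn φ (mem_univ _) (mem_univ _) (hc.ne h.1)) (meas_Op T))))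
  rintro _ ⟨x, y, h, -, rfl⟩
  exact mem_EdIn φ (mem_univ _) (mem_univ _) h

lemma real_Ch (hφ : Function.Injective φ) (m2 : MeasurableSet Q2) (m4 : MeasurableSet Q4)
    {p δ s : ℝ} (hp : nu.real (Op T) = p) (hm : nu.real (Mu T) = p ^ 2) (hδ0 : 0 ≤ δ)
    (hδ : p + Fintype.card W * p * δ ≤ δ) (hs : nu.real (Sg T (Iic T)) = s)
    (hs2 : nu.real (Sg T Q2) = s / 4) (hs4 : nu.real (Sg T Q4) = s / 4) {a N : ℝ}
    (hN : (Fintype.card W : ℝ) = N) (hε : a ^ 2 * (2 * N * p ^ 2 + N ^ 2 * p ^ 2 * δ + p) ≤ 1 / 2)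
    {k : ℕ} (hk : (k : ℝ) + 3 ≤ a) {c : ZMod (k + 3) → W} (hc : Function.Injective c) :
    s ^ (k + 3) / 32 ≤ (PP nu (Sym2 V)).real (Ch φ T Q2 Q4 c) := by
  have hp0 : 0 ≤ p := hp ▸ measureReal_nonneg
  have hs0 : 0 ≤ s := hs ▸ measureReal_nonneg
  set E1 : Set (Sym2 V → ℕ → ℝ) := ⋂ i ∈ (Finset.univ : Finset (ZMod (k + 3))),
    {ω | ω s(φ (c i), φ (c (i + 1))) ∈ Sg T (Iv T Q2 Q4 i)} with hE1
  set E2 : Set (Sym2 V → ℕ → ℝ) := Bad φ T (range c) ∪
    ⋃ z ∈ (Finset.univ : Finset (ZMod (k + 3) × ZMod (k + 3))),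
      {ω | (z.1 ≠ z.2 ∧ z.2 ≠ z.1 + 1 ∧ z.1 ≠ z.2 + 1) ∧ ω s(φ (c z.1), φ (c z.2)) ∈ Op T} with hE2
  have he : Ch φ T Q2 Q4 c = E1 ∩ E2ᶜ := by
    ext ω
    simp only [Ch, hE1, hE2, mem_setOf_eq, Finset.mem_univ, iInter_true, iUnion_true, mem_inter_iff,
      mem_iInter, mem_compl_iff, mem_union, mem_iUnion, not_or, not_exists, Prod.forall]
  have hcφ : Function.Injective (φ ∘ c) := hφ.comp hc
  have hed : ∀ i j i' j', s(φ (c i), φ (c j)) = s(φ (c i'), φ (c j')) →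
      (i = i' ∧ j = j') ∨ (i = j' ∧ j = i') := fun i j i' j' h => (ed_eq hcφ).1 h
  let S1 : Set (Sym2 V) := range fun i => s(φ (c i), φ (c (i + 1)))
  have d1 : Dep S1 E1 := Dep.iInter fun i => Dep.iInter fun _ =>
    Dep.atom (mem_range_self i) (meas_Sg T (Iv_meas m2 m4 i))
  have d2 : Dep S1ᶜ E2 := by
    refine Dep.union ((dep_Bad _).mono ?_) (Dep.iUnion fun z => Dep.iUnion fun _ =>
      Dep.guard fun h => Dep.atom ?_ (meas_Op T))
    · rintro _ ⟨x, y, -, hy, rfl⟩ ⟨i, hi⟩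
      rcases (ed_eq hφ).1 hi with h | h
      · exact hy ⟨_, h.2⟩
      · exact hy ⟨_, h.1⟩
    · rintro ⟨i, hi⟩
      rcases hed _ _ _ _ hi with h1 | h1
      · exact h.2.1 (by rw [← h1.1, ← h1.2])
      · exact h.2.2 (by rw [← h1.1, ← h1.2])
  rw [he, real_inter nu disjoint_compl_right d1 d2.compl, probReal_compl_eq_one_sub d2.meas]
  have b1 : s ^ (k + 3) / 16 ≤ (PP nu (Sym2 V)).real E1 := by
    rw [hE1, real_biInter nu _ (fun i => {s(φ (c i), φ (c (i + 1)))}) _ _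
      (fun i _ => Dep.atom (mem_singleton _) (meas_Sg T (Iv_meas m2 m4 i)))]
    · calc s ^ (k + 3) / 16 = ∏ i : ZMod (k + 3),
            (s * ((if i = 0 then 1 / 4 else 1) * (if i = -1 then 1 / 4 else 1))) := by
            rw [Finset.prod_mul_distrib, Finset.prod_mul_distrib, Finset.prod_ite_eq',
              Finset.prod_ite_eq']
            simp only [Finset.prod_const, Finset.card_univ, ZMod.card, Finset.mem_univ, if_true]
            ring
        _ ≤ _ := by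
            refine Finset.prod_le_prod (fun i _ => by split_ifs <;> positivity) fun i _ => ?_
            rw [real_atom nu _ (meas_Sg T (Iv_meas m2 m4 i))]
            unfold Iv
            split_ifs <;> simp only [hs, hs2, hs4] <;> linarith
    · intro i _ j _ hij
      rw [disjoint_singleton]
      intro h
      rcases hed _ _ _ _ h with h1 | h1
      · exact hij h1.1
      · exact zm_two (by linear_combination h1.2 - h1.1 : (1 + 1 : ZMod (k + 3)) = 0)
  have b2 : (PP nu (Sym2 V)).real E2 ≤ 1 / 2 := by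
    have ha1 : 1 ≤ a := by linarith [Nat.cast_nonneg (α := ℝ) k]
    have c1 := real_Bad hφ hp hm hδ0 hδ (Finset.univ.image c) (a := a)
      (le_trans (by exact_mod_cast Finset.card_image_le.trans (by simp)) hk) ha1 hN
    rw [Finset.coe_image, Finset.coe_univ, image_univ] at c1
    have c2 := real_biUnion_le (PP nu (Sym2 V))
      (Finset.univ : Finset (ZMod (k + 3) × ZMod (k + 3)))
      (fun z => {ω | (z.1 ≠ z.2 ∧ z.2 ≠ z.1 + 1 ∧ z.1 ≠ z.2 + 1) ∧
        ω s(φ (c z.1), φ (c z.2)) ∈ Op T}) p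
      (fun z _ => real_guard_le _ _ _ hp0 fun _ => by rw [real_atom nu _ (meas_Op T), hp])
    simp only [Finset.card_univ, Fintype.card_prod, ZMod.card] at c2
    refine (measureReal_union_le _ _).trans ((add_le_add c1 c2).trans (le_trans ?_ hε))
    push_cast
    have : ((k : ℝ) + 3) * (k + 3) * p ≤ a ^ 2 * p := by
      rw [sq]; gcongr
    nlinarith
  calc s ^ (k + 3) / 32 = s ^ (k + 3) / 16 * (1 / 2) := by ring
    _ ≤ _ := mul_le_mul b1 (by linarith) (by norm_num) measureReal_nonneg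

omit [Fintype W] [DecidableEq W] in
lemma Ch.range_sub (h2 : Q2 ⊆ Iic T) (h4 : Q4 ⊆ Iic T) {k k' : ℕ} {c : ZMod (k + 3) → W}
    {c' : ZMod (k' + 3) → W} (hc' : Function.Injective c') {ω : Sym2 V → ℕ → ℝ}
    (h : ω ∈ Ch φ T Q2 Q4 c) (h' : ω ∈ Ch φ T Q2 Q4 c') (j : ZMod (k' + 3))
    (hj : c' j ∈ range c) : c' (j + 1) ∈ range c := by
  classical
  by_contra hn
  have hex : ∃ m : ℕ, c' (j + 1 + m + 1) ∈ range c := ⟨k' + 1, by
    have : j + 1 + ((k' + 1 : ℕ) : ZMod (k' + 3)) + 1 = j := by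
      have := ZMod.natCast_self (k' + 3)
      push_cast at this ⊢
      linear_combination this
    rwa [this]⟩
  have hm := Nat.find_spec hex
  have hmin := fun l => Nat.find_min hex (m := l)
  have hout : ∀ l ≤ Nat.find hex, c' (j + 1 + (l : ℕ)) ∉ range c := by
    rintro (_ | l) hl
    · simpa using hn
    · have := hmin l (by omega)
      rwa [Nat.cast_succ, ← add_assoc]
  have hR : ∀ l ≤ Nat.find hex, ω ∈ Rc φ T (range c)ᶜ (c' (j + 1)) (c' (j + 1 + (l : ℕ))) := by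
    intro l
    induction l with
    | zero => intro _; simp only [Nat.cast_zero, add_zero]; exact ReflTransGen.refl
    | succ l ih =>
      intro hl
      refine ReflTransGen.tail (ih (by omega)) ⟨hout l (by omega), hout (l + 1) hl, ?_⟩
      rw [Nat.cast_succ, ← add_assoc]
      exact ⟨hc'.ne (succ_ne _), Ch.op h2 h4 h' _⟩
  refine h.2.1 (Or.inr ⟨c' j, _, c' (j + 1), _, ⟨hj, hm, hn, hout _ le_rfl, fun he => ?_⟩,
    Ch.op h2 h4 h' _, by rw [Sym2.eq_swap]; exact Ch.op h2 h4 h' _, hR _ le_rfl⟩)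
  have e1 := hc' (Prod.mk.inj he).1
  have e2 := hc' (Prod.mk.inj he).2
  exact zm_two (by linear_combination e2 - e1 : (1 + 1 : ZMod (k' + 3)) = 0)

omit [Fintype W] [DecidableEq W] in
lemma Ch.unique (h2 : Q2 ⊆ Iic T) (h4 : Q4 ⊆ Iic T) (hd : Disjoint Q2 Q4) {k k' : ℕ}
    {c : ZMod (k + 3) → W} {c' : ZMod (k' + 3) → W} (hc : Function.Injective c)
    (hc' : Function.Injective c') (h0 : c 0 = c' 0) {ω : Sym2 V → ℕ → ℝ}
    (h : ω ∈ Ch φ T Q2 Q4 c) (h' : ω ∈ Ch φ T Q2 Q4 c') :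
    (⟨k, c⟩ : Σ k, ZMod (k + 3) → W) = ⟨k', c'⟩ := by
  have hin : ∀ i : ℕ, c' i ∈ range c := by
    intro i
    induction i with
    | zero => exact ⟨0, by simpa using h0⟩
    | succ i ih => rw [Nat.cast_succ]; exact Ch.range_sub h2 h4 hc' h h' _ ih
  have key : ∀ i : ℕ, c i = c' i ∧ c (i + 1) = c' (i + 1) := by
    intro i
    induction i with
    | zero =>
      simp only [Nat.cast_zero]
      refine ⟨h0, ?_⟩
      obtain ⟨j, hj⟩ := hin 1
      rw [Nat.cast_one, ← zero_add 1] at hj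
      have ho := Ch.op h2 h4 h' 0
      have hq := (h'.1 0).1
      rw [← hj, ← h0] at ho hq
      have hne : (0 : ZMod (k + 3)) ≠ j := fun e => succ_ne 0 (hc' (by rw [← hj, ← e, h0]))
      rcases Ch.int h hne ho with e | e
      · rw [← hj, e]
      · have hq' := (h.1 j).1
        rw [← e, Sym2.eq_swap] at hq'
        have ej : j = -1 := by linear_combination -e
        simp only [Iv, if_true] at hq
        rw [Iv, if_neg hne.symm, if_pos ej] at hq'
        exact absurd hq' (disjoint_left.1 hd hq)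
    | succ i ih =>
      simp only [Nat.cast_succ]
      refine ⟨ih.2, ?_⟩
      obtain ⟨j, hj⟩ := hin (i + 1 + 1)
      rw [Nat.cast_succ, Nat.cast_succ] at hj
      have ho := Ch.op h2 h4 h' (i + 1)
      rw [← hj, ← ih.2] at ho
      have hne : (i + 1 : ZMod (k + 3)) ≠ j :=
        fun e => succ_ne (i + 1) (hc' (by rw [← hj, ← e, ih.2]))
      rcases Ch.int h hne ho with e | e
      · rw [← hj, e]
      · have ej : j = i := by linear_combination -e
        rw [ej, ih.1] at hj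
        exact absurd (by linear_combination -(hc' hj) : (1 + 1 : ZMod (k' + 3)) = 0) zm_two
  have d1 : k' + 3 ∣ k + 3 := by
    rw [← ZMod.natCast_eq_zero_iff]
    apply hc'
    rw [← (key _).1, ZMod.natCast_self, h0]
  have d2 : k + 3 ∣ k' + 3 := by
    rw [← ZMod.natCast_eq_zero_iff]
    apply hc
    rw [(key _).1, ZMod.natCast_self, h0]
  obtain rfl : k = k' := by have := Nat.dvd_antisymm d1 d2; omega
  congr 1
  funext i
  obtain ⟨i, rfl⟩ := ZMod.natCast_zmod_surjective i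
  exact (key i).1

omit [Fintype W] [DecidableEq W] in
lemma Ch.bad (h2 : Q2 ⊆ Iic T) (h4 : Q4 ⊆ Iic T) {k : ℕ} {c : ZMod (k + 3) → W}
    (hc : Function.Injective c) {ω : Sym2 V → ℕ → ℝ} (h : ω ∈ Ch φ T Q2 Q4 c) :
    ω ∈ Bad φ T {c 0} := by
  have hout : ∀ l : ℕ, l < k + 2 → c (l + 1) ∉ ({c 0} : Set W) := fun l hl e => by
    have := zm_ne (k := k) (i := l + 1) (by omega) (by omega)
    exact this (by rw [Nat.cast_succ]; exact hc e)
  have hR : ∀ l : ℕ, l < k + 2 → ω ∈ Rc φ T {c 0}ᶜ (c (0 + 1)) (c (l + 1)) := by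
    intro l
    induction l with
    | zero => intro _; simp only [Nat.cast_zero]; exact ReflTransGen.refl
    | succ l ih =>
      intro hl
      refine ReflTransGen.tail (ih (by omega)) ⟨hout l (by omega), hout (l + 1) hl, ?_⟩
      rw [Nat.cast_succ]
      exact ⟨hc.ne (succ_ne _), Ch.op h2 h4 h _⟩
  have e : ((k + 1 : ℕ) : ZMod (k + 3)) + 1 + 1 = 0 := by
    have := ZMod.natCast_self (k + 3)
    push_cast at this ⊢
    linear_combination this
  have o1 := Ch.op h2 h4 h (((k + 1 : ℕ) : ZMod (k + 3)) + 1)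
  rw [e, Sym2.eq_swap] at o1
  refine Or.inr ⟨c 0, c 0, c (0 + 1), _, ⟨rfl, rfl, by simpa using hout 0 (by omega),
    hout (k + 1) (by omega), fun he => ?_⟩, Ch.op h2 h4 h 0, o1, hR (k + 1) (by omega)⟩
  have e2 := hc (Prod.mk.inj he).2
  exact zm_two (by linear_combination e + e2 : (1 + 1 : ZMod (k + 3)) = 0)

/-- Cycles of length `k + 3` through `o`. -/
def Cyc (o : W) (k : ℕ) : Finset (ZMod (k + 3) → W) :=
  Finset.univ.filter fun c => Function.Injective c ∧ c 0 = o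

lemma card_Cyc (o : W) (k : ℕ) : (Fintype.card W - (k + 2)) ^ (k + 2) ≤ (Cyc o k).card := by
  have h1 : (Fintype.card W - (k + 2)) ^ (k + 2) ≤ Fintype.card (Fin (k + 2) ↪ {w // w ≠ o}) := by
    rw [Fintype.card_embedding_eq, Fintype.card_fin, Fintype.card_subtype_compl,
      Fintype.card_subtype_eq]
    refine le_trans (Nat.pow_le_pow_left (by omega) _) (Nat.pow_sub_le_descFactorial _ _)
  refine h1.trans ?_
  rw [← Finset.card_univ]
  refine Finset.card_le_card_of_injOn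
    (fun f => (Fin.cons o fun i => (f i).1 : Fin (k + 3) → W)) (fun f _ => ?_) fun f _ g _ h => ?_
  · simp only [Cyc, Finset.coe_filter, Finset.mem_univ, true_and, mem_setOf_eq]
    refine ⟨?_, rfl⟩
    refine Fin.cons_injective_iff.2 ⟨?_, Subtype.val_injective.comp f.injective⟩
    rintro ⟨i, hi⟩
    exact (f i).2 hi
  · ext i
    exact congrFun h i.succ

/-- Some cycle through `o` of length less than `K + 3` is a chord. -/
def ChU (φ : W → V) (T : ℝ) (Q2 Q4 : Set ℝ) (o : W) (K : ℕ) : Set (Sym2 V → ℕ → ℝ) :=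
  ⋃ z ∈ (Finset.range K).sigma (Cyc o), Ch φ T Q2 Q4 z.2

lemma mem_Cyc {o : W} {K : ℕ} {z : Σ k, ZMod (k + 3) → W} :
    z ∈ (Finset.range K).sigma (Cyc o) ↔ z.1 < K ∧ Function.Injective z.2 ∧ z.2 0 = o := by
  simp [Cyc]

lemma dep_ChU (m2 : MeasurableSet Q2) (m4 : MeasurableSet Q4) (o : W) (K : ℕ) :
    Dep (EdIn φ univ) (ChU φ T Q2 Q4 o K) :=
  Dep.iUnion fun _ => Dep.iUnion fun hz => dep_Ch m2 m4 (mem_Cyc.1 hz).2.1

lemma real_ChU (hφ : Function.Injective φ) (m2 : MeasurableSet Q2) (m4 : MeasurableSet Q4)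
    (h2 : Q2 ⊆ Iic T) (h4 : Q4 ⊆ Iic T) (hd : Disjoint Q2 Q4)
    {p δ s : ℝ} (hp : nu.real (Op T) = p) (hm : nu.real (Mu T) = p ^ 2) (hδ0 : 0 ≤ δ)
    (hδ : p + Fintype.card W * p * δ ≤ δ) (hs : nu.real (Sg T (Iic T)) = s)
    (hs2 : nu.real (Sg T Q2) = s / 4) (hs4 : nu.real (Sg T Q4) = s / 4) {N : ℝ} {K : ℕ}
    (hN : (Fintype.card W : ℝ) = N)
    (hε : ((K : ℝ) + 2) ^ 2 * (2 * N * p ^ 2 + N ^ 2 * p ^ 2 * δ + p) ≤ 1 / 2)
    (hc1 : 1 - 1 / (2 * ((K : ℝ) + 2)) ≤ (N - (K + 2)) * s) (o : W) :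
    K * s / 64 ≤ (PP nu (Sym2 V)).real (ChU φ T Q2 Q4 o K) := by
  have hs0 : 0 ≤ s := hs ▸ measureReal_nonneg
  have hK0 : (0 : ℝ) ≤ K := Nat.cast_nonneg _
  rw [ChU, measureReal_biUnion_finset _ (fun z hz => (dep_Ch m2 m4 (mem_Cyc.1 hz).2.1).meas)
    (fun _ _ => measure_ne_top _ _), Finset.sum_sigma]
  · calc (K : ℝ) * s / 64 = ∑ _k ∈ Finset.range K, s / 64 := by simp; ring
      _ ≤ _ := Finset.sum_le_sum fun k hk => ?_
    have hk' : (k : ℝ) + 1 ≤ K := by exact_mod_cast Finset.mem_range.1 hk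
    have b1 : ((Cyc o k).card : ℝ) * (s ^ (k + 3) / 32) ≤
        ∑ c ∈ Cyc o k, (PP nu (Sym2 V)).real (Ch φ T Q2 Q4 c) := by
      rw [← nsmul_eq_mul]
      refine Finset.card_nsmul_le_sum _ _ _ fun c hc => ?_
      exact real_Ch hφ m2 m4 hp hm hδ0 hδ hs hs2 hs4 hN hε (by linarith)
        (Finset.mem_filter.1 hc).2.1
    refine le_trans ?_ b1
    have hx0 : 0 ≤ 1 - 1 / (2 * ((K : ℝ) + 2)) := by
      rw [sub_nonneg, div_le_one (by positivity)]; linarith
    have b2 : (N - (K + 2)) * s ≤ ((Fintype.card W - (k + 2) : ℕ) : ℝ) * s := by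
      refine mul_le_mul_of_nonneg_right ?_ hs0
      have : (Fintype.card W : ℝ) ≤ ((Fintype.card W - (k + 2) : ℕ) : ℝ) + (k + 2 : ℕ) := by
        exact_mod_cast le_tsub_add
      push_cast at this
      linarith
    have b3 : (1 / 2 : ℝ) ≤ (1 - 1 / (2 * ((K : ℝ) + 2))) ^ (k + 2) := by
      have := one_add_mul_le_pow (a := -(1 / (2 * ((K : ℝ) + 2)))) (by linarith) (k + 2)
      rw [← sub_eq_add_neg] at this
      refine le_trans ?_ this
      have h3 : ((k + 2 : ℕ) : ℝ) * (1 / (2 * ((K : ℝ) + 2))) ≤ 1 / 2 := by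
        rw [mul_one_div, div_le_iff₀ (by positivity)]; push_cast; linarith
      linarith
    have b4 := b3.trans (pow_le_pow_left₀ hx0 (hc1.trans b2) (k + 2))
    have b5 : (((Fintype.card W - (k + 2) : ℕ) : ℝ)) ^ (k + 2) ≤ (Cyc o k).card := by
      exact_mod_cast card_Cyc o k
    rw [mul_pow] at b4
    calc s / 64 = 1 / 2 * (s / 32) := by ring
      _ ≤ ((Cyc o k).card * s ^ (k + 2)) * (s / 32) := by
          refine mul_le_mul_of_nonneg_right (b4.trans ?_) (by positivity)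
          gcongr
      _ = _ := by ring
  · intro z hz z' hz' hne
    have hz := mem_Cyc.1 hz
    have hz' := mem_Cyc.1 hz'
    rw [Function.onFun, disjoint_left]
    exact fun ω h h' => hne (Ch.unique h2 h4 hd hz.2.1 hz'.2.1 (hz.2.2.trans hz'.2.2.symm) h h')

end Pool.Agent.H319Z.Stir
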