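import Pool.Agent.H319Z.Stir.Det

/-! Events inside one clique. -/

set_option maxHeartbeats 400000

open MeasureTheory ProbabilityTheory Set Relation

namespace Pool.Agent.H319Z.Stir

variable {V W : Type} [Fintype W] [DecidableEq W] (φ : W → V) (T : ℝ)

lemma real_biUnion_le {Ω κ : Type} [MeasurableSpace Ω] (P : Measure Ω) (s : Finset κ)
    (E : κ → Set Ω) (c : ℝ) (h : ∀ k ∈ s, P.real (E k) ≤ c) :
    P.real (⋃ k ∈ s, E k) ≤ s.card * c :=
  (measureReal_biUnion_finset_le _ _).trans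
    ((Finset.sum_le_card_nsmul _ _ _ h).trans (by rw [nsmul_eq_mul]))

lemma real_guard_le {Ω : Type} [MeasurableSpace Ω] (P : Measure Ω) (g : Prop) (E : Ω → Prop)
    {c : ℝ} (hc : 0 ≤ c) (h : g → P.real {ω | E ω} ≤ c) : P.real {ω | g ∧ E ω} ≤ c := by
  by_cases hg : g
  · simpa [hg] using h hg
  · simpa [hg] using hc

/-- Open connection inside `S`. -/
def Rc (S : Set W) (a b : W) : Set (Sym2 V → ℕ → ℝ) :=
  {ω | ReflTransGen (fun x y => x ∈ S ∧ y ∈ S ∧ (x ≠ y ∧ ω s(φ x, φ y) ∈ Op T)) a b}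

/-- Edges inside `S`. -/
def EdIn (S : Set W) : Set (Sym2 V) := {e | ∃ x ∈ S, ∃ y ∈ S, x ≠ y ∧ e = s(φ x, φ y)}

/-- Edges with an end outside `A`. -/
def EdOut (A : Set W) : Set (Sym2 V) := {e | ∃ x y, x ≠ y ∧ y ∉ A ∧ e = s(φ x, φ y)}

omit [Fintype W] [DecidableEq W] in
lemma mem_EdIn {S : Set W} {x y : W} (hx : x ∈ S) (hy : y ∈ S) (h : x ≠ y) :
    s(φ x, φ y) ∈ EdIn φ S := ⟨x, hx, y, hy, h, rfl⟩

omit [Fintype W] [DecidableEq W] in
lemma mem_EdOut {A : Set W} {x y : W} (h : x ∈ A) (hy : y ∉ A) :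
    s(φ x, φ y) ∈ EdOut φ A := ⟨x, y, fun e => hy (e ▸ h), hy, rfl⟩

omit [DecidableEq W] in
lemma dep_Rc (S : Set W) (a b : W) : Dep (EdIn φ S) (Rc φ T S a b) :=
  Dep.of_fin (κ := W × W)
    (fun z ω => z.1 ∈ S ∧ z.2 ∈ S ∧ (z.1 ≠ z.2 ∧ ω s(φ z.1, φ z.2) ∈ Op T))
    (fun _ => Dep.guard fun h1 => Dep.guard fun h2 => Dep.guard fun h3 =>
      Dep.atom (mem_EdIn φ h1 h2 h3) (meas_Op T))
    (fun r => ReflTransGen (fun x y => r (x, y)) a b)

variable {φ T}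

omit [Fintype W] [DecidableEq W] in
lemma ed_eq (hφ : Function.Injective φ) {a b c d : W} :
    s(φ a, φ b) = s(φ c, φ d) ↔ (a = c ∧ b = d) ∨ (a = d ∧ b = c) := by
  simp [hφ.eq_iff]

omit [DecidableEq W] in
lemma real_Rc (hφ : Function.Injective φ) {p δ : ℝ} (hp : nu.real (Op T) = p) (hδ0 : 0 ≤ δ)
    (hδ : p + Fintype.card W * p * δ ≤ δ) (n : ℕ) : ∀ (S : Set W) (a b : W), S.ncard = n → a ≠ b →
    (PP nu (Sym2 V)).real (Rc φ T S a b) ≤ δ := by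
  classical
  have hp0 : 0 ≤ p := hp ▸ measureReal_nonneg
  induction n using Nat.strong_induction_on with
  | _ n ih =>
    intro S a b hS hab
    by_cases ha : a ∈ S
    swap
    · have : Rc φ T S a b = ∅ := by
        ext ω
        simp only [Rc, mem_setOf_eq, mem_empty_iff_false, iff_false]
        intro h
        rcases h.cases_head with h | ⟨c, h, -⟩
        · exact hab h
        · exact ha h.1
      simpa [this] using hδ0
    have hsub : Rc φ T S a b ⊆ {ω | ω s(φ a, φ b) ∈ Op T} ∪ ⋃ y ∈ (Finset.univ : Finset W),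
        {ω | y ≠ b ∧ ω ∈ {ω | ω s(φ a, φ y) ∈ Op T} ∩ Rc φ T (S \ {a}) y b} := by
      intro ω h
      rcases last_exit _ S a h hab.symm with h | ⟨y, h1, h2, h3, h4⟩
      · exact absurd rfl h.1
      · by_cases hy : y = b
        · exact Or.inl (hy ▸ h2.2)
        · exact Or.inr (by simp only [mem_iUnion]; exact ⟨y, by simp, hy, h2.2, h4⟩)
    refine (rmono hsub).trans ((measureReal_union_le _ _).trans (le_trans (add_le_add ?_ ?_) hδ))
    · rw [real_atom nu _ (meas_Op T), hp]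
    · rw [mul_assoc]
      refine real_biUnion_le _ _ _ _ fun y _ => real_guard_le _ _ _ (by positivity) fun hy => ?_
      rw [setOf_mem_eq, real_inter nu (S := {s(φ a, φ y)}) (T := EdIn φ (S \ {a})) _
        (Dep.atom (mem_singleton _) (meas_Op T)) (dep_Rc φ T _ _ _), real_atom nu _ (meas_Op T), hp]
      · refine mul_le_mul_of_nonneg_left (ih _ ?_ _ y b rfl hy) hp0
        rw [← hS]
        exact ncard_diff_singleton_lt_of_mem ha
      · rw [disjoint_singleton_left]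
        rintro ⟨x, hx, z, hz, -, h⟩
        rcases (ed_eq hφ).1 h with h | h
        · exact hx.2 h.1.symm
        · exact hz.2 h.1.symm

variable (φ T) in
/-- Some open cluster outside `A` may have two bars to `A`. -/
def Bad (A : Set W) : Set (Sym2 V → ℕ → ℝ) :=
  {ω | (∃ x y, (x ∈ A ∧ y ∉ A) ∧ ω s(φ x, φ y) ∈ Mu T) ∨
    ∃ x x' y y', (x ∈ A ∧ x' ∈ A ∧ y ∉ A ∧ y' ∉ A ∧ (x, y) ≠ (x', y')) ∧ ω s(φ x, φ y) ∈ Op T ∧
      ω s(φ x', φ y') ∈ Op T ∧ ω ∈ Rc φ T Aᶜ y y'}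

omit [DecidableEq W] in
lemma dep_Bad (A : Set W) : Dep (EdOut φ A) (Bad φ T A) := by
  refine Dep.or (Dep.ex fun x => Dep.ex fun y => Dep.guard fun h =>
    Dep.atom (mem_EdOut φ h.1 h.2) (meas_Mu T))
    (Dep.ex fun x => Dep.ex fun x' => Dep.ex fun y => Dep.ex fun y' => Dep.guard fun h =>
      Dep.and (Dep.atom (mem_EdOut φ h.1 h.2.2.1) (meas_Op T))
      (Dep.and (Dep.atom (mem_EdOut φ h.2.1 h.2.2.2.1) (meas_Op T))
      ((dep_Rc φ T _ _ _).mono ?_).mem))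
  rintro _ ⟨a, -, b, hb, h, rfl⟩
  exact ⟨a, b, h, hb, rfl⟩

lemma real_two {e e' : Sym2 V} (h : e ≠ e') {B B' : Set (ℕ → ℝ)} (hB : MeasurableSet B)
    (hB' : MeasurableSet B') :
    (PP nu (Sym2 V)).real {ω | ω e ∈ B ∧ ω e' ∈ B'} = nu.real B * nu.real B' := by
  have := real_inter nu (S := {e}) (T := {e'}) (by simpa using h)
    (Dep.atom (mem_singleton _) hB) (Dep.atom (mem_singleton _) hB')
  rw [real_atom nu _ hB, real_atom nu _ hB'] at this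
  exact this

lemma real_Bad (hφ : Function.Injective φ) {p δ : ℝ} (hp : nu.real (Op T) = p)
    (hm : nu.real (Mu T) = p ^ 2) (hδ0 : 0 ≤ δ) (hδ : p + Fintype.card W * p * δ ≤ δ)
    (A : Finset W) {a N : ℝ} (ha : (A.card : ℝ) ≤ a) (ha1 : 1 ≤ a) (hN : (Fintype.card W : ℝ) = N) :
    (PP nu (Sym2 V)).real (Bad φ T A) ≤ a ^ 2 * (2 * N * p ^ 2 + N ^ 2 * p ^ 2 * δ) := by
  have hp0 : 0 ≤ p := hp ▸ measureReal_nonneg
  have hN0 : 0 ≤ N := hN ▸ Nat.cast_nonneg _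
  have hsub : Bad φ T (A : Set W) ⊆
      (⋃ z ∈ A ×ˢ (Finset.univ : Finset W), {ω | ω s(φ z.1, φ z.2) ∈ Mu T}) ∪
      ((⋃ z ∈ (A ×ˢ A) ×ˢ (Finset.univ : Finset W), {ω | (z.1.1 ≠ z.1.2 ∧ z.2 ∉ A) ∧
        (ω s(φ z.1.1, φ z.2) ∈ Op T ∧ ω s(φ z.1.2, φ z.2) ∈ Op T)}) ∪
      (⋃ z ∈ (A ×ˢ A) ×ˢ (Finset.univ : Finset (W × W)),
        {ω | (z.2.1 ≠ z.2.2 ∧ z.2.1 ∉ A ∧ z.2.2 ∉ A) ∧ ω ∈
        {ω | ω s(φ z.1.1, φ z.2.1) ∈ Op T ∧ ω s(φ z.1.2, φ z.2.2) ∈ Op T} ∩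
          Rc φ T (A : Set W)ᶜ z.2.1 z.2.2})) := by
    rintro ω (⟨x, y, h1, h2⟩ | ⟨x, x', y, y', ⟨h1, h2, h3, h4, h5⟩, h6, h7, h8⟩)
    · left
      simp only [mem_iUnion]
      exact ⟨(x, y), by simpa using h1.1, h2⟩
    · right
      by_cases hy : y = y'
      · left
        subst hy
        simp only [mem_iUnion]
        exact ⟨((x, x'), y), by simpa using ⟨h1, h2⟩, ⟨fun e => h5 (by rw [show x = x' from e]),
          h3⟩, h6, h7⟩
      · right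
        simp only [mem_iUnion]
        exact ⟨((x, x'), (y, y')), by simpa using ⟨h1, h2⟩, ⟨hy, h3, h4⟩, ⟨h6, h7⟩, h8⟩
  have b1 := real_biUnion_le (PP nu (Sym2 V)) (A ×ˢ (Finset.univ : Finset W))
    (fun z => {ω | ω s(φ z.1, φ z.2) ∈ Mu T}) (p ^ 2)
    (fun z _ => by rw [real_atom nu _ (meas_Mu T), hm])
  have b2 := real_biUnion_le (PP nu (Sym2 V)) ((A ×ˢ A) ×ˢ (Finset.univ : Finset W))
    (fun z => {ω | (z.1.1 ≠ z.1.2 ∧ z.2 ∉ A) ∧
        (ω s(φ z.1.1, φ z.2) ∈ Op T ∧ ω s(φ z.1.2, φ z.2) ∈ Op T)}) (p ^ 2)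
    (fun z hz => real_guard_le _ _ _ (by positivity) fun h => by
      rw [real_two _ (meas_Op T) (meas_Op T), hp, sq]
      intro he
      simp only [Finset.mem_product] at hz
      rcases (ed_eq hφ).1 he with h1 | h1
      · exact h.1 h1.1
      · exact h.2 (h1.1 ▸ hz.1.1))
  have b3 := real_biUnion_le (PP nu (Sym2 V)) ((A ×ˢ A) ×ˢ (Finset.univ : Finset (W × W)))
    (fun z => {ω | (z.2.1 ≠ z.2.2 ∧ z.2.1 ∉ A ∧ z.2.2 ∉ A) ∧ ω ∈
        {ω | ω s(φ z.1.1, φ z.2.1) ∈ Op T ∧ ω s(φ z.1.2, φ z.2.2) ∈ Op T} ∩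
          Rc φ T (A : Set W)ᶜ z.2.1 z.2.2}) (p ^ 2 * δ)
    (fun z hz => real_guard_le _ _ _ (by positivity) fun h => by
      simp only [Finset.mem_product] at hz
      rw [setOf_mem_eq, real_inter nu (S := {s(φ z.1.1, φ z.2.1), s(φ z.1.2, φ z.2.2)})
        (T := EdIn φ (A : Set W)ᶜ) _
        (Dep.and (Dep.atom (by simp) (meas_Op T)) (Dep.atom (by simp) (meas_Op T)))
        (dep_Rc φ T _ _ _), real_two _ (meas_Op T) (meas_Op T), hp, sq]
      · exact mul_le_mul_of_nonneg_left (real_Rc hφ hp hδ0 hδ _ _ _ _ rfl h.1) (by positivity)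
      · intro he
        rcases (ed_eq hφ).1 he with h1 | h1
        · exact h.1 h1.2
        · exact h.2.2 (h1.1 ▸ hz.1.1)
      · rw [disjoint_left]
        rintro e he ⟨x, hx, y, hy, -, rfl⟩
        rcases he with he | he <;> rcases (ed_eq hφ).1 he with h1 | h1
        · exact hx (h1.1 ▸ hz.1.1)
        · exact hy (h1.2 ▸ hz.1.1)
        · exact hx (h1.1 ▸ hz.1.2)
        · exact hy (h1.2 ▸ hz.1.2))
  simp only [Finset.card_product, Finset.card_univ, Fintype.card_prod, Nat.cast_mul, hN]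
    at b1 b2 b3
  have hA0 : (0 : ℝ) ≤ A.card := Nat.cast_nonneg _
  have c1 : (A.card : ℝ) ≤ a ^ 2 := by nlinarith
  have c2 : (A.card : ℝ) * A.card ≤ a ^ 2 := by nlinarith
  refine (rmono hsub).trans ((measureReal_union_le _ _).trans
    ((add_le_add b1 ((measureReal_union_le _ _).trans (add_le_add b2 b3))).trans ?_))
  have d1 : (A.card : ℝ) * N * p ^ 2 ≤ a ^ 2 * N * p ^ 2 := by gcongr
  have d2 : (A.card : ℝ) * A.card * N * p ^ 2 ≤ a ^ 2 * N * p ^ 2 := by gcongr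
  have d3 : (A.card : ℝ) * A.card * (N * N) * (p ^ 2 * δ) ≤ a ^ 2 * (N * N) * (p ^ 2 * δ) := by
    gcongr
  nlinarith

end Pool.Agent.H319Z.Stir
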