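import Mathlib

/-!
# The random stirring model

Every unordered pair of vertices carries a sequence of i.i.d. exponential waiting times of rate `1`;
their partial sums are the points of a rate `1` Poisson process.  Only pairs that are edges of the
graph produce bars.
-/

open MeasureTheory ProbabilityTheory

namespace Pool.Agent.H319Z.Stir

variable {V : Type}

/-- The law of the clocks: independent `Exp(1)` waiting times `ω e 0, ω e 1, …` for each pair `e`. -/
noncomputable def law (V : Type) : Measure (Sym2 V → ℕ → ℝ) :=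
  Measure.infinitePi fun _ => Measure.infinitePi fun _ => expMeasure 1

/-- `xy` is an edge of `G` and its Poisson process has a point (a bar) at time `t ≤ T`. -/
def Bar (G : SimpleGraph V) (T : ℝ) (ω : Sym2 V → ℕ → ℝ) (x y : V) (t : ℝ) : Prop :=
  G.Adj x y ∧ t ≤ T ∧ ∃ k : ℕ, t = ∑ i ∈ Finset.range (k + 1), ω s(x, y) i

/-- From the space-time point `p` the trajectory moves up to the first later bar at its vertex
and jumps across it, arriving at `q`. -/
def Jump (G : SimpleGraph V) (T : ℝ) (ω : Sym2 V → ℕ → ℝ) (p q : V × ℝ) : Prop :=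
  Bar G T ω p.1 q.1 q.2 ∧ p.2 < q.2 ∧ ∀ y s, Bar G T ω p.1 y s → p.2 < s → q.2 ≤ s

/-- From `p` the trajectory meets no later bar, reaches time `T` and restarts at time `0`. -/
def Wrap (G : SimpleGraph V) (T : ℝ) (ω : Sym2 V → ℕ → ℝ) (p q : V × ℝ) : Prop :=
  q = (p.1, 0) ∧ ∀ y s, Bar G T ω p.1 y s → s ≤ p.2

/-- The cycle of `v`: all `u` such that the trajectory from `(v, 0)` passes through `(u, 0)`. -/
def cycle (G : SimpleGraph V) (T : ℝ) (ω : Sym2 V → ℕ → ℝ) (v : V) : Set V :=
  {u | Relation.ReflTransGen (fun p q => Jump G T ω p q ∨ Wrap G T ω p q) (v, 0) (u, 0)}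

/-- The model is well defined on `G`: for every `T > 0`, almost surely no trajectory makes
infinitely many jumps before reaching time `T`. -/
def WellDefined (G : SimpleGraph V) : Prop :=
  ∀ T : ℝ, 0 < T → ∀ᵐ ω ∂(law V), ¬ ∃ f : ℕ → V × ℝ, ∀ n, Jump G T ω (f n) (f (n + 1))

/-- The set of `T > 0` for which almost surely some cycle is infinite. -/
def infTimes (G : SimpleGraph V) : Set ℝ :=
  {T | 0 < T ∧ ∀ᵐ ω ∂(law V), ∃ v, (cycle G T ω v).Infinite}

end Pool.Agent.H319Z.Stir
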