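import Mathlib

/-! Events of a product space that depend on a set of coordinates. -/

open MeasureTheory ProbabilityTheory Set

namespace Pool.Agent.H319Z.Stir

variable {ι X : Type} [mX : MeasurableSpace X]

/-- The sigma-algebra generated by the coordinates in `S`. -/
@[reducible] def mS (X : Type) [mX : MeasurableSpace X] (S : Set ι) : MeasurableSpace (ι → X) :=
  ⨆ i ∈ S, mX.comap (fun ω : ι → X => ω i)

/-- The event depends measurably on the coordinates in `S`. -/
def Dep (S : Set ι) (A : Set (ι → X)) : Prop := MeasurableSet[mS X S] A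

lemma mS_mono {S T : Set ι} (h : S ⊆ T) : mS X S ≤ mS X T :=
  biSup_mono h

lemma mS_le (S : Set ι) : mS X S ≤ MeasurableSpace.pi := by
  refine iSup₂_le fun i _ => ?_
  exact (measurable_pi_apply i).comap_le

lemma meas_eval {S : Set ι} {i : ι} (hi : i ∈ S) : Measurable[mS X S] (fun ω : ι → X => ω i) := by
  refine Measurable.of_comap_le ?_
  exact le_iSup₂ (f := fun i (_ : i ∈ S) => mX.comap (fun ω : ι → X => ω i)) i hi

namespace Dep

variable {S T : Set ι} {A B : Set (ι → X)}

lemma mono (h : Dep S A) (hST : S ⊆ T) : Dep T A := mS_mono hST _ h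

lemma meas (h : Dep S A) : MeasurableSet A := mS_le S _ h

lemma atom {i : ι} (hi : i ∈ S) {B : Set X} (hB : MeasurableSet B) :
    Dep S {ω : ι → X | ω i ∈ B} := meas_eval hi hB

lemma inter (h : Dep S A) (h' : Dep S B) : Dep S (A ∩ B) := MeasurableSet.inter h h'
lemma union (h : Dep S A) (h' : Dep S B) : Dep S (A ∪ B) := MeasurableSet.union h h'
lemma compl (h : Dep S A) : Dep S Aᶜ := MeasurableSet.compl h
lemma univ : Dep S (univ : Set (ι → X)) := @MeasurableSet.univ _ (mS X S)
lemma empty : Dep S (∅ : Set (ι → X)) := @MeasurableSet.empty _ (mS X S)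

lemma const (p : Prop) : Dep S {_ω : ι → X | p} := @MeasurableSet.const _ (mS X S) p

lemma iUnion {κ : Sort*} [Countable κ] {A : κ → Set (ι → X)} (h : ∀ k, Dep S (A k)) :
    Dep S (⋃ k, A k) := MeasurableSet.iUnion h

lemma iInter {κ : Sort*} [Countable κ] {A : κ → Set (ι → X)} (h : ∀ k, Dep S (A k)) :
    Dep S (⋂ k, A k) := MeasurableSet.iInter h

lemma mem (h : Dep S A) : Dep S {ω | ω ∈ A} := h

lemma and {p q : (ι → X) → Prop} (h : Dep S {ω | p ω}) (h' : Dep S {ω | q ω}) :
    Dep S {ω | p ω ∧ q ω} := h.inter h'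

lemma or {p q : (ι → X) → Prop} (h : Dep S {ω | p ω}) (h' : Dep S {ω | q ω}) :
    Dep S {ω | p ω ∨ q ω} := h.union h'

lemma not {p : (ι → X) → Prop} (h : Dep S {ω | p ω}) : Dep S {ω | ¬ p ω} := h.compl

lemma ex {κ : Sort*} [Countable κ] {p : κ → (ι → X) → Prop} (h : ∀ k, Dep S {ω | p k ω}) :
    Dep S {ω | ∃ k, p k ω} := by
  rw [ofPred_exists]; exact iUnion h

lemma all {κ : Sort*} [Countable κ] {p : κ → (ι → X) → Prop} (h : ∀ k, Dep S {ω | p k ω}) :
    Dep S {ω | ∀ k, p k ω} := by
  rw [ofPred_forall]; exact iInter h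

/-- A guarded event. -/
lemma guard {c : Prop} {p : (ι → X) → Prop} (h : c → Dep S {ω | p ω}) :
    Dep S {ω | c ∧ p ω} := by
  by_cases hc : c
  · simpa [hc] using h hc
  · simpa [hc] using empty

lemma of_fin {κ : Type} [Finite κ] (r : κ → (ι → X) → Prop) (h : ∀ k, Dep S {ω | r k ω})
    (F : (κ → Prop) → Prop) : Dep S {ω | F (fun k => r k ω)} := by
  have hm : Measurable[mS X S] (fun ω (k : κ) => r k ω) := by
    refine @measurable_pi_lambda _ _ _ (mS X S) _ _ fun k => ?_
    exact (@measurableSet_setOfPred _ (mS X S) _).1 (h k)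
  exact hm (MeasurableSet.of_discrete (s := {f | F f}))

end Dep

lemma rmono {Ω : Type} [MeasurableSpace Ω] {P : Measure Ω} [IsFiniteMeasure P] {A B : Set Ω}
    (h : A ⊆ B) : P.real A ≤ P.real B := measureReal_mono h (measure_ne_top _ _)

variable (ν : Measure X) [IsProbabilityMeasure ν]

/-- The product measure. -/
noncomputable abbrev PP (ι : Type) : Measure (ι → X) := Measure.infinitePi fun _ : ι => ν

lemma indep_mS {S T : Set ι} (h : Disjoint S T) : Indep (mS X S) (mS X T) (PP ν ι) := by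
  have h1 : iIndepFun (fun (i : ι) (ω : ι → X) => ω i) (PP ν ι) :=
    iIndepFun_infinitePi (X := fun _ x => x) (fun _ => measurable_id)
  exact indep_iSup_of_disjoint (fun i => (measurable_pi_apply i).comap_le) h1 h

lemma real_inter {S T : Set ι} (h : Disjoint S T) {A B : Set (ι → X)} (hA : Dep S A)
    (hB : Dep T B) : (PP ν ι).real (A ∩ B) = (PP ν ι).real A * (PP ν ι).real B := by
  have := (Indep_iff _ _ _).1 (indep_mS ν h) A B hA hB
  simp only [Measure.real, this, ENNReal.toReal_mul]

lemma real_biInter {κ : Type} (s : Finset κ) (S : κ → Set ι) (A : κ → Set (ι → X))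
    (hS : ∀ i ∈ s, ∀ j ∈ s, i ≠ j → Disjoint (S i) (S j)) (hA : ∀ i ∈ s, Dep (S i) (A i)) :
    (PP ν ι).real (⋂ i ∈ s, A i) = ∏ i ∈ s, (PP ν ι).real (A i) := by
  classical
  induction s using Finset.induction_on with
  | empty => simp
  | insert a s ha ih =>
    rw [Finset.set_biInter_insert, Finset.prod_insert ha,
      real_inter ν (S := S a) (T := ⋃ i ∈ s, S i) _ (hA a (by simp)), ih]
    · intro i hi j hj; exact hS i (by simp [hi]) j (by simp [hj])
    · intro i hi; exact hA i (by simp [hi])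
    · refine Finset.measurableSet_biInter (m := mS X _) s fun i hi => ?_
      exact (hA i (by simp [hi])).mono (subset_biUnion_of_mem (u := S) hi)
    · simp only [disjoint_iUnion_right]
      intro i hi
      exact hS a (by simp) i (by simp [hi]) (fun h => ha (h ▸ hi))

lemma real_atom (i : ι) {B : Set X} (hB : MeasurableSet B) :
    (PP ν ι).real {ω | ω i ∈ B} = ν.real B := by
  have := (measurePreserving_eval_infinitePi (fun _ : ι => ν) i).measure_preimage
    hB.nullMeasurableSet
  simp only [Measure.real]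
  rw [← this]; rfl

lemma ae_eval {p : X → Prop} (h : ∀ᵐ x ∂ν, p x) (i : ι) : ∀ᵐ ω ∂(PP ν ι), p (ω i) :=
  (measurePreserving_eval_infinitePi (fun _ : ι => ν) i).quasiMeasurePreserving.ae h

/-- Slicing bound for two functions of disjoint sets of coordinates. -/
lemma slice_bound {S T : Set ι} (h : Disjoint S T) {β γ : Type} [MeasurableSpace β]
    [MeasurableSpace γ] {f : (ι → X) → β} {g : (ι → X) → γ} (hf : Measurable[mS X S] f)
    (hg : Measurable[mS X T] g) {A : Set (β × γ)} (hA : MeasurableSet A) {C : Set γ}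
    (hC : MeasurableSet C) (c : ENNReal)
    (h1 : ∀ y ∈ C, (PP ν ι).map f {x | (x, y) ∈ A} ≤ c) (h2 : ∀ y ∉ C, ∀ x, (x, y) ∉ A) :
    PP ν ι {ω | (f ω, g ω) ∈ A} ≤ c * PP ν ι {ω | g ω ∈ C} := by
  have hf' : Measurable f := hf.mono (mS_le S) le_rfl
  have hg' : Measurable g := hg.mono (mS_le T) le_rfl
  have hi : IndepFun f g (PP ν ι) :=
    indep_of_indep_of_le_right (indep_of_indep_of_le_left (indep_mS ν h) hf.comap_le) hg.comap_le
  have hm := hi.map_prod_eq_prod_map_map hf'.aemeasurable hg'.aemeasurable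
  have e1 : PP ν ι {ω | (f ω, g ω) ∈ A} = ((PP ν ι).map (fun ω => (f ω, g ω))) A := by
    rw [Measure.map_apply (hf'.prodMk hg') hA]; rfl
  have e2 : PP ν ι {ω | g ω ∈ C} = ((PP ν ι).map g) C := by
    rw [Measure.map_apply hg' hC]; rfl
  rw [e1, e2, hm, Measure.prod_apply_symm hA]
  calc ∫⁻ y, ((PP ν ι).map f) ((fun x => (x, y)) ⁻¹' A) ∂((PP ν ι).map g)
      ≤ ∫⁻ y, C.indicator (fun _ => c) y ∂((PP ν ι).map g) := by
        refine lintegral_mono fun y => ?_
        by_cases hy : y ∈ C
        · rw [indicator_of_mem hy]; exact h1 y hy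
        · have : (fun x => (x, y)) ⁻¹' A = ∅ := by
            ext x; simpa using h2 y hy x
          simp [this]
    _ = c * ((PP ν ι).map g) C := by
        rw [lintegral_indicator hC]; simp

end Pool.Agent.H319Z.Stir
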