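import Pool.Agent.H319Z.Stir.Edge

/-! Deterministic lemmas about trajectories. -/

set_option maxHeartbeats 400000

open Set Relation

namespace Pool.Agent.H319Z.Stir

variable {V : Type} {G : SimpleGraph V} {T : ℝ} {ω : Sym2 V → ℕ → ℝ}

/-- One step of a trajectory. -/
abbrev Step (G : SimpleGraph V) (T : ℝ) (ω : Sym2 V → ℕ → ℝ) (p q : V × ℝ) : Prop :=
  Jump G T ω p q ∨ Wrap G T ω p q

lemma last_exit {α : Type} (r : α → α → Prop) (S : Set α) (u : α) {x w : α}
    (h : ReflTransGen (fun a b => a ∈ S ∧ b ∈ S ∧ r a b) x w) (hw : w ≠ u) :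
    (x ≠ u ∧ ReflTransGen (fun a b => a ∈ S \ {u} ∧ b ∈ S \ {u} ∧ r a b) x w) ∨
      ∃ y, y ∈ S ∧ r u y ∧ y ≠ u ∧
        ReflTransGen (fun a b => a ∈ S \ {u} ∧ b ∈ S \ {u} ∧ r a b) y w := by
  induction h using ReflTransGen.head_induction_on with
  | refl => exact Or.inl ⟨hw, .refl⟩
  | @head a c hac _ ih =>
    rcases ih with ⟨h1, h2⟩ | h
    · by_cases ha : a = u
      · exact Or.inr ⟨c, hac.2.1, ha ▸ hac.2.2, h1, h2⟩
      · exact Or.inl ⟨ha, .head ⟨⟨hac.1, ha⟩, ⟨hac.2.1, h1⟩, hac.2.2⟩ h2⟩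
    · exact Or.inr h

lemma Bar.symm {x y : V} {t : ℝ} (h : Bar G T ω x y t) : Bar G T ω y x t :=
  ⟨h.1.symm, h.2.1, by rw [Sym2.eq_swap]; exact h.2.2⟩

lemma Bar.pos (hg : Gen T ω) {x y : V} {t : ℝ} (h : Bar G T ω x y t) : 0 < t := by
  obtain ⟨-, -, k, rfl⟩ := h
  exact (hg.pos _ 0).trans_le (le_Sm (hg.pos _) (Nat.zero_le k))

lemma Bar.edge_eq (hg : Gen T ω) {x y x' y' : V} {t : ℝ} (h : Bar G T ω x y t)
    (h' : Bar G T ω x' y' t) : s(x, y) = s(x', y') := by
  obtain ⟨-, -, k, hk⟩ := h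
  obtain ⟨-, -, l, hl⟩ := h'
  by_contra hne
  exact hg.ne _ _ hne k l (hk.symm.trans hl)

lemma Bar.right_eq (hg : Gen T ω) {x y y' : V} {t : ℝ} (h : Bar G T ω x y t)
    (h' : Bar G T ω x y' t) : y = y' := by
  have := h.edge_eq hg h'
  exact Sym2.congr_right.1 this

lemma Bar.op (hg : Gen T ω) {x y : V} {t : ℝ} (h : Bar G T ω x y t) : ω s(x, y) ∈ Op T := by
  obtain ⟨-, h, k, rfl⟩ := h
  exact (le_Sm (hg.pos _) (Nat.zero_le k)).trans h

lemma bar_of_op {x y : V} (h : G.Adj x y) (ho : ω s(x, y) ∈ Op T) :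
    Bar G T ω x y (ω s(x, y) 0) := ⟨h, ho, 0, by simp⟩

lemma Bar.single (hg : Gen T ω) {x y : V} {t : ℝ} (h : Bar G T ω x y t)
    (hm : ω s(x, y) ∉ Mu T) : t = ω s(x, y) 0 := by
  have ho := h.op hg
  obtain ⟨-, h, k, rfl⟩ := h
  rcases Nat.eq_zero_or_pos k with rfl | hk
  · simp
  · exact absurd ⟨ho, (le_Sm (hg.pos _) hk).trans h⟩ hm

lemma bars_finite (hg : Gen T ω) (hG : ∀ x, (G.neighborSet x).Finite) (x : V) :
    {t | ∃ y, Bar G T ω x y t}.Finite := by
  have : {t | ∃ y, Bar G T ω x y t} ⊆ ⋃ y ∈ G.neighborSet x, {t | Bar G T ω x y t} := by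
    rintro t ⟨y, hy⟩
    exact mem_biUnion (show y ∈ G.neighborSet x from hy.1) hy
  refine ((hG x).biUnion fun y _ => ?_).subset this
  obtain ⟨K, hK⟩ := hg.fin s(x, y)
  refine ((finite_lt_nat K).image fun k => Sm k (ω s(x, y))).subset ?_
  rintro t ⟨-, h, k, rfl⟩
  refine ⟨k, ?_, rfl⟩
  exact (Sm_strictMono (hg.pos _)).lt_iff_lt.1 (lt_of_le_of_lt h hK)

lemma step_total (hg : Gen T ω) (hG : ∀ x, (G.neighborSet x).Finite) (p : V × ℝ) :
    ∃ q, Step G T ω p q := by
  by_cases h : ∃ y s, Bar G T ω p.1 y s ∧ p.2 < s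
  · have hf : {t | (∃ y, Bar G T ω p.1 y t) ∧ p.2 < t}.Finite :=
      (bars_finite hg hG p.1).subset fun t ht => ht.1
    obtain ⟨y, s, h1, h2⟩ := h
    obtain ⟨t, ⟨⟨z, hz⟩, ht⟩, hmin⟩ := exists_min_image _ id hf ⟨s, ⟨y, h1⟩, h2⟩
    exact ⟨(z, t), Or.inl ⟨hz, ht, fun y s h1 h2 => hmin s ⟨⟨y, h1⟩, h2⟩⟩⟩
  · push Not at h
    exact ⟨(p.1, 0), Or.inr ⟨rfl, h⟩⟩

/-- Open edges avoiding `A`. -/
abbrev rO (G : SimpleGraph V) (T : ℝ) (ω : Sym2 V → ℕ → ℝ) (A : Set V) (a b : V) : Prop :=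
  a ∉ A ∧ b ∉ A ∧ G.Adj a b ∧ ω s(a, b) ∈ Op T

/-- Every open cluster outside `A` has at most one bar to `A`. -/
def Uni (G : SimpleGraph V) (T : ℝ) (ω : Sym2 V → ℕ → ℝ) (A : Set V) : Prop :=
  ∀ x ∈ A, ∀ x' ∈ A, ∀ y ∉ A, ∀ y' ∉ A, ∀ t t', ReflTransGen (rO G T ω A) y y' →
    Bar G T ω x y t → Bar G T ω x' y' t' → x = x' ∧ t = t'

/-- Cyclic interval from `a` to `b`. -/
def cyc (a b t : ℝ) : Prop := (a ≤ t ∧ t < b) ∨ (b < a ∧ (a ≤ t ∨ t < b))

/-- A cycle of single bars through `c o` cuts off the time interval between its two bars at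
`c o`. -/
theorem chord (hg : Gen T ω) {κ : Type} (σ : Equiv.Perm κ) (hσ : ∀ i, σ (σ i) ≠ i) (c : κ → V)
    (hc : Function.Injective c) (hadj : ∀ i, G.Adj (c i) (c (σ i)))
    (hop : ∀ i, ω s(c i, c (σ i)) ∈ Op T) (hmu : ∀ i, ω s(c i, c (σ i)) ∉ Mu T)
    (hint : ∀ i j, G.Adj (c i) (c j) → ω s(c i, c j) ∈ Op T → j = σ i ∨ i = σ j)
    (hU : Uni G T ω (range c)) (o : κ) {v z : V} (hv : v ∉ range c) (hz : z ∉ range c)
    (hv' : ∀ x ∈ range c, ∀ y ∉ range c, ∀ t, ReflTransGen (rO G T ω (range c)) v y →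
      Bar G T ω x y t → x = c o ∧ t < ω s(c o, c (σ o)) 0)
    {t' : ℝ} (hzt : Bar G T ω (c o) z t') (h1 : ω s(c o, c (σ o)) 0 < t')
    (h2 : t' < ω s(c (σ.symm o), c o) 0) {τ₀ τ : ℝ} :
    ¬ ReflTransGen (Step G T ω) (v, τ₀) (z, τ) := by
  set β : κ → ℝ := fun i => ω s(c i, c (σ i)) 0 with hβ
  have hbar : ∀ i, Bar G T ω (c i) (c (σ i)) (β i) := fun i => bar_of_op (hadj i) (hop i)
  have hbar' : ∀ i, Bar G T ω (c i) (c (σ.symm i)) (β (σ.symm i)) := fun i => by
    have := (hbar (σ.symm i)).symm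
    rwa [Equiv.apply_symm_apply] at this
  have hne : ∀ i, β (σ.symm i) ≠ β i := fun i h => by
    have h3 := hc ((hbar' i).right_eq hg (h ▸ hbar i))
    apply hσ i
    rw [← h3, Equiv.apply_symm_apply]
  have hin : ∀ i j s, Bar G T ω (c i) (c j) s →
      (j = σ i ∧ s = β i) ∨ (j = σ.symm i ∧ s = β (σ.symm i)) := by
    intro i j s h
    rcases hint i j h.1 (h.op hg) with rfl | rfl
    · exact Or.inl ⟨rfl, h.single hg (hmu i)⟩
    · refine Or.inr ⟨by simp, ?_⟩
      rw [Equiv.symm_apply_apply]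
      exact h.symm.single hg (hmu j)
  let Arc : V → ℝ → Prop := fun x t => ∃ i, x = c i ∧ cyc (β (σ.symm i)) (β i) t
  let Good : V × ℝ → Prop := fun p => Arc p.1 p.2 ∨ (p.1 ∉ range c ∧
    ∀ x ∈ range c, ∀ y ∉ range c, ∀ t, ReflTransGen (rO G T ω (range c)) p.1 y →
      Bar G T ω x y t → Arc x t)
  have hstep : ∀ p q, Good p → Step G T ω p q → Good q := by
    rintro ⟨x, t⟩ ⟨y, s⟩ hp hpq
    rcases hp with ⟨i, rfl, hi⟩ | ⟨hx, hp⟩
    · rcases hpq with ⟨hb, hlt, hmin⟩ | ⟨he, hmax⟩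
      · simp only at hb hlt hmin hi
        have m1 := hmin _ _ (hbar i)
        have m2 := hmin _ _ (hbar' i)
        by_cases hy : y ∈ range c
        · obtain ⟨j, rfl⟩ := hy
          rcases hin i j s hb with ⟨rfl, rfl⟩ | ⟨rfl, rfl⟩
          · refine Or.inl ⟨σ i, rfl, ?_⟩
            have := hne (σ i)
            simp only [Equiv.symm_apply_apply] at this ⊢
            rcases lt_or_gt_of_ne this with h | h
            · exact Or.inl ⟨le_rfl, h⟩
            · exact Or.inr ⟨h, Or.inl le_rfl⟩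
          · exfalso
            rcases hi with ⟨h3, h4⟩ | ⟨h3, h4 | h4⟩
            · linarith
            · linarith
            · linarith [m1 h4]
        · refine Or.inr ⟨hy, fun x' hx' y' hy' t'' hr hb' => ?_⟩
          obtain ⟨rfl, rfl⟩ := hU _ ⟨i, rfl⟩ _ hx' _ hy _ hy' _ _ hr hb hb'
          refine ⟨i, rfl, ?_⟩
          have n1 : s ≠ β i := fun h => hy ⟨_, (hb.right_eq hg (h ▸ hbar i)).symm⟩
          rcases hi with ⟨h3, h4⟩ | ⟨h3, h4 | h4⟩
          · exact Or.inl ⟨by linarith, lt_of_le_of_ne (m1 h4) n1⟩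
          · exact Or.inr ⟨h3, Or.inl (by linarith)⟩
          · exact Or.inr ⟨h3, Or.inr (lt_of_le_of_ne (m1 h4) n1)⟩
      · obtain ⟨rfl, rfl⟩ := Prod.mk.inj he
        simp only at hmax hi
        have m1 := hmax _ _ (hbar i)
        refine Or.inl ⟨i, rfl, ?_⟩
        rcases hi with ⟨h3, h4⟩ | ⟨h3, h4 | h4⟩
        · linarith
        · exact Or.inr ⟨h3, Or.inr ((hbar i).pos hg)⟩
        · linarith
    · rcases hpq with ⟨hb, hlt, hmin⟩ | ⟨he, hmax⟩
      · simp only at hb hx hp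
        by_cases hy : y ∈ range c
        · exact Or.inl (hp y hy x hx s .refl hb.symm)
        · exact Or.inr ⟨hy, fun x' hx' y' hy' t'' hr hb' =>
            hp x' hx' y' hy' t'' (.head ⟨hx, hy, hb.1, hb.op hg⟩ hr) hb'⟩
      · obtain ⟨rfl, rfl⟩ := Prod.mk.inj he
        exact Or.inr ⟨hx, hp⟩
  have h2' : t' < β (σ.symm o) := by simpa [hβ] using h2
  have h1' : β o < t' := h1
  have hstart : Good (v, τ₀) := by
    refine Or.inr ⟨hv, fun x hx y hy t hr hb => ?_⟩
    obtain ⟨rfl, h3⟩ := hv' x hx y hy t hr hb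
    exact ⟨o, rfl, Or.inr ⟨by linarith, Or.inr h3⟩⟩
  intro hr
  have hall : ∀ q, ReflTransGen (Step G T ω) (v, τ₀) q → Good q := by
    intro q hq
    induction hq with
    | refl => exact hstart
    | tail _ h ih => exact hstep _ _ ih h
  rcases hall _ hr with ⟨i, hi, -⟩ | ⟨-, h⟩
  · exact hz ⟨i, hi.symm⟩
  · obtain ⟨i, hi, h3⟩ := h _ ⟨o, rfl⟩ z hz t' .refl hzt
    obtain rfl := hc hi
    rcases h3 with ⟨h3, h4⟩ | ⟨h3, h4 | h4⟩ <;> linarith

/-- States that can occur on a trajectory. -/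
def Valid (G : SimpleGraph V) (T : ℝ) (ω : Sym2 V → ℕ → ℝ) (p : V × ℝ) : Prop :=
  p.2 = 0 ∨ ∃ y, Bar G T ω p.1 y p.2

lemma Step.valid {p q : V × ℝ} (h : Step G T ω p q) : Valid G T ω q := by
  rcases h with h | h
  · exact Or.inr ⟨_, h.1.symm⟩
  · exact Or.inl (by rw [h.1])

lemma step_inj (hg : Gen T ω) {p q r : V × ℝ} (hp : Valid G T ω p) (hq : Valid G T ω q)
    (h : Step G T ω p r) (h' : Step G T ω q r) : p = q := by
  obtain ⟨x, s⟩ := p
  obtain ⟨y, t⟩ := q
  have key : ∀ {x : V} {s t : ℝ}, Valid G T ω (x, s) → Valid G T ω (x, t) → s < t →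
      ∃ y, Bar G T ω x y t := by
    intro x s t hs ht hst
    rcases ht with ht | ht
    · rcases hs with hs | ⟨y, hs⟩
      · simp only at hs ht; linarith
      · have := hs.pos hg; simp only at this ht; linarith
    · exact ht
  rcases h with h | h <;> rcases h' with h' | h'
  · obtain rfl : x = y := h.1.symm.right_eq hg h'.1.symm
    congr 1
    rcases lt_trichotomy s t with hst | hst | hst
    · obtain ⟨z, hz⟩ := key hp hq hst
      linarith [h.2.2 z t hz hst, h'.2.1]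
    · exact hst
    · obtain ⟨z, hz⟩ := key hq hp hst
      linarith [h'.2.2 z s hz hst, h.2.1]
  · have := h.1.pos hg; rw [h'.1] at this; simp at this
  · have := h'.1.pos hg; rw [h.1] at this; simp at this
  · obtain rfl : x = y := (Prod.mk.inj (h.1.symm.trans h'.1)).1
    congr 1
    rcases lt_trichotomy s t with hst | hst | hst
    · obtain ⟨z, hz⟩ := key hp hq hst
      linarith [h.2 z t hz]
    · exact hst
    · obtain ⟨z, hz⟩ := key hq hp hst
      linarith [h'.2 z s hz]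

/-- A ray of clean vertices joined by bars forces an infinite cycle. -/
theorem clean_ray (hg : Gen T ω) (hG : ∀ x, (G.neighborSet x).Finite)
    (hex : ¬ ∃ f : ℕ → V × ℝ, ∀ n, Jump G T ω (f n) (f (n + 1))) (w : ℕ → V)
    (hw : Function.Injective w) (hU : ∀ i, Uni G T ω {w i})
    (hb : ∀ i, ∃ t, Bar G T ω (w i) (w (i + 1)) t) : (cycle G T ω (w 0)).Infinite := by
  intro hfin
  choose f hf using step_total hg hG
  set o : ℕ → V × ℝ := fun n => f^[n] (w 0, 0) with ho
  have hos : ∀ n, Step G T ω (o n) (o (n + 1)) := fun n => by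
    simp only [ho, Function.iterate_succ_apply']; exact hf _
  have hval : ∀ n, Valid G T ω (o n) := by
    rintro (_ | n)
    · exact Or.inl rfl
    · exact (hos n).valid
  have hreach : ∀ n, ReflTransGen (Step G T ω) (w 0, 0) (o n) := by
    intro n
    induction n with
    | zero => exact .refl
    | succ n ih => exact ih.tail (hos n)
  have hinf : {n | (o n).2 = 0}.Infinite := by
    intro h
    obtain ⟨N, hN⟩ := h.bddAbove
    refine hex ⟨fun n => o (n + N), fun n => ?_⟩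
    rcases hos (n + N) with h | h
    · simpa [add_right_comm] using h
    · have : n + N + 1 ≤ N := hN (show (o (n + N + 1)).2 = 0 by rw [h.1])
      omega
  obtain ⟨n, hn, m, hm, hnm, he⟩ := hinf.exists_lt_map_eq_of_mapsTo (f := fun n => (o n).1)
    (t := cycle G T ω (w 0)) (fun n hn => by
      have := hreach n
      rw [← Prod.mk.eta (p := o n), show (o n).2 = 0 from hn] at this
      exact this) hfin
  have he' : o n = o m := Prod.ext he (by rw [show (o n).2 = 0 from hn, show (o m).2 = 0 from hm])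
  obtain ⟨P, rfl⟩ := Nat.exists_eq_add_of_lt hnm
  have hper0 : o 0 = o (P + 1) := by
    clear hn hm hnm he
    induction n with
    | zero => simpa using he'
    | succ n ih =>
      apply ih
      refine step_inj hg (hval _) (hval _) (hos n) ?_
      rw [he', show n + 1 + P + 1 = n + P + 1 + 1 by ring]
      exact hos _
  have hper : ∀ k, o (k + (P + 1)) = o k := fun k => by
    have : o (k + (P + 1)) = f^[k] (o (P + 1)) := by simp only [ho, Function.iterate_add_apply]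
    rw [this, ← hper0]; rfl
  have hrange : (range o).Finite := by
    refine ((finite_lt_nat (P + 1)).image o).subset ?_
    rintro _ ⟨k, rfl⟩
    refine ⟨k % (P + 1), Nat.mod_lt _ (by omega), ?_⟩
    exact Function.Periodic.map_mod_nat hper k
  -- an excursion from a clean vertex returns through the same bar
  have hret : ∀ x, Uni G T ω {x} → ∀ k t y s, o k = (x, t) → o (k + 1) = (y, s) →
      Bar G T ω x y s → ∃ l, o l = (x, s) := by
    intro x hx k t y s hk hk1 hbar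
    have hyx : y ≠ x := hbar.1.ne.symm
    have hex : ∃ l, (o (k + 1 + l)).1 = x := ⟨P, by rw [add_assoc, add_comm 1, hper, hk]⟩
    classical
    have hl := Nat.find_spec hex
    have hmin := fun l => Nat.find_min hex (m := l)
    have hcl : ∀ l < Nat.find hex, ReflTransGen (rO G T ω {x}) y (o (k + 1 + l)).1 := by
      intro l
      induction l with
      | zero => intro _; rw [add_zero, hk1]
      | succ l ih =>
        intro hlt
        have ih := ih (by omega)
        rcases hos (k + 1 + l) with h | h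
        · exact ih.tail ⟨hmin l (by omega), hmin (l + 1) hlt, h.1.1, h.1.op hg⟩
        · rw [← add_assoc, h.1]; exact ih
    obtain ⟨l, hl'⟩ : ∃ l, Nat.find hex = l + 1 := by
      refine Nat.exists_eq_succ_of_ne_zero fun h => ?_
      rw [h, add_zero, hk1] at hl
      exact hyx hl
    rw [hl', ← add_assoc] at hl
    rcases hos (k + 1 + l) with h | h
    · have h1 := h.1.symm
      rw [hl] at h1
      have := (hx x rfl x rfl y hyx _ (hmin l (by omega)) _ _ (hcl l (by omega)) hbar h1).2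
      exact ⟨k + 1 + l + 1, Prod.ext hl this.symm⟩
    · rw [h.1] at hl
      exact absurd hl (hmin l (by omega))
  have hcover : ∀ x, Uni G T ω {x} → ∀ N t, {s | (∃ y, Bar G T ω x y s) ∧ t < s}.ncard = N →
      (∃ k, o k = (x, t)) → (∃ k, o k = (x, 0)) ∧
        ∀ y s, Bar G T ω x y s → t < s → ∃ k, o k = (y, s) := by
    intro x hx N
    induction N using Nat.strong_induction_on with
    | _ N ih =>
      rintro t hN ⟨k, hk⟩
      rcases hos k with h | h
      · rw [hk] at h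
        obtain ⟨h1, h2, h3⟩ := h
        simp only at h1 h2 h3
        have hr := hret x hx k t _ _ hk rfl h1
        have hf : {s | (∃ y, Bar G T ω x y s) ∧ t < s}.Finite :=
          (bars_finite hg hG x).subset fun t ht => ht.1
        have hlt : {s | (∃ y, Bar G T ω x y s) ∧ (o (k + 1)).2 < s}.ncard < N := by
          rw [← hN]
          refine ncard_lt_ncard ⟨fun s hs => ⟨hs.1, h2.trans hs.2⟩, fun h => ?_⟩ hf
          exact lt_irrefl _ (h ⟨⟨_, h1⟩, h2⟩).2
        obtain ⟨i1, i2⟩ := ih _ hlt _ rfl hr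
        refine ⟨i1, fun y s hb hs => ?_⟩
        rcases (h3 y s hb hs).eq_or_lt with h | h
        · exact ⟨k + 1, Prod.ext (h1.right_eq hg (h ▸ hb)) h⟩
        · exact i2 y s hb h
      · rw [hk] at h
        exact ⟨⟨k + 1, h.1⟩, fun y s hb hs => absurd (h.2 y s hb) (not_le.2 hs)⟩
  have hvis : ∀ i, ∃ k t, o k = (w i, t) := by
    intro i
    induction i with
    | zero => exact ⟨0, 0, rfl⟩
    | succ i ih =>
      obtain ⟨k, t, hk⟩ := ih
      obtain ⟨s, hs⟩ := hb i
      have h0 := (hcover _ (hU i) _ t rfl ⟨k, hk⟩).1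
      obtain ⟨k', hk'⟩ := (hcover _ (hU i) _ 0 rfl h0).2 _ _ hs (hs.pos hg)
      exact ⟨k', s, hk'⟩
  refine infinite_range_of_injective hw ((hrange.image Prod.fst).subset ?_)
  rintro _ ⟨i, rfl⟩
  obtain ⟨k, t, hk⟩ := hvis i
  exact ⟨_, ⟨k, hk⟩, rfl⟩

/-- A bar at a time in `[a, a + τ]`. -/
def OpI (T a τ : ℝ) : Set (ℕ → ℝ) := {x | ∃ k, Sm k x ≤ T ∧ Sm k x ∈ Icc a (a + τ)}

theorem no_explosion (hg : Gen T ω) (hG : ∀ x, (G.neighborSet x).Finite) {τ : ℝ} (hτ : 0 < τ)
    (hcl : ∀ (j : ℕ) (v : V), {x | ReflTransGen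
      (fun a b => a ∈ univ ∧ b ∈ univ ∧ (G.Adj a b ∧ ω s(a, b) ∈ OpI T (j * τ) τ)) v x}.Finite) :
    ¬ ∃ f : ℕ → V × ℝ, ∀ n, Jump G T ω (f n) (f (n + 1)) := by
  rintro ⟨f, hf⟩
  have hmono : StrictMono fun n => (f n).2 := strictMono_nat_of_lt_succ fun n => (hf n).2.1
  have hex : ∃ j : ℕ, ∀ n, (f (n + 1)).2 ≤ j * τ := by
    obtain ⟨j, hj⟩ := exists_nat_ge (T / τ)
    exact ⟨j, fun n => (hf n).1.2.1.trans (by rwa [div_le_iff₀ hτ] at hj)⟩
  classical
  have h1 := Nat.find_spec hex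
  obtain ⟨j, hj⟩ : ∃ j, Nat.find hex = j + 1 := by
    refine Nat.exists_eq_succ_of_ne_zero fun h => ?_
    have := h1 0
    rw [h] at this
    have h2 := (hf 0).1.pos hg
    simp at this h2
    linarith
  have h2 := Nat.find_min hex (m := j) (by omega)
  push Not at h2
  obtain ⟨N, hN⟩ := h2
  rw [hj] at h1
  have hC := hcl j (f N).1
  have hin : ∀ n, ReflTransGen (fun a b => a ∈ univ ∧ b ∈ univ ∧
      (G.Adj a b ∧ ω s(a, b) ∈ OpI T (j * τ) τ)) (f N).1 (f (N + n)).1 := by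
    intro n
    induction n with
    | zero => exact .refl
    | succ n ih =>
      refine ih.tail ⟨trivial, trivial, (hf (N + n)).1.1, ?_⟩
      obtain ⟨-, h3, k, hk⟩ := (hf (N + n)).1
      refine ⟨k, le_of_eq_of_le hk.symm h3, ?_, ?_⟩
      · refine hN.le.trans (le_of_le_of_eq (hmono.monotone (by omega : N + 1 ≤ N + n + 1)) hk)
      · have := h1 (N + n)
        push_cast at this
        exact le_of_eq_of_le hk.symm (by linarith)
  have hfin := hC.biUnion fun x _ => bars_finite hg hG x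
  refine infinite_range_of_injective (f := fun n => (f (N + n + 1)).2)
    (fun a b h => ?_) (hfin.subset ?_)
  · have := hmono.injective h; omega
  · rintro _ ⟨n, rfl⟩
    exact mem_biUnion (hin n) ⟨_, (hf (N + n)).1⟩

end Pool.Agent.H319Z.Stir
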