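import Pool.Agent.H319Z.Stir.Defs
import Pool.Agent.H319Z.Stir.Dep

/-! One edge: a sequence of i.i.d. exponential waiting times. -/

set_option maxHeartbeats 200000

open MeasureTheory ProbabilityTheory Set

namespace Pool.Agent.H319Z.Stir

noncomputable abbrev ex1 : Measure ℝ := expMeasure 1

instance ex1_prob : IsProbabilityMeasure ex1 := isProbabilityMeasure_expMeasure one_pos

/-- The law of one edge. -/
noncomputable abbrev nu : Measure (ℕ → ℝ) := PP ex1 ℕ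

lemma law_eq (V : Type) : law V = PP nu (Sym2 V) := rfl

/-- Partial sums. -/
noncomputable def Sm (k : ℕ) (x : ℕ → ℝ) : ℝ := ∑ i ∈ Finset.range (k + 1), x i

lemma meas_Sm (k : ℕ) : Measurable (Sm k) := by
  unfold Sm; fun_prop

lemma ex1_Iic {t : ℝ} (ht : 0 ≤ t) : ex1.real (Iic t) = 1 - Real.exp (-t) := by
  have := cdf_expMeasure_eq (r := 1) one_pos t
  rw [cdf_eq_real] at this
  simpa [ht] using this

lemma ex1_le_vol (A : Set ℝ) (hA : MeasurableSet A) : ex1 A ≤ volume A := by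
  have : ex1 = volume.withDensity (exponentialPDF 1) := rfl
  rw [this, withDensity_apply _ hA]
  calc ∫⁻ a in A, exponentialPDF 1 a ≤ ∫⁻ _ in A, 1 := by
        refine lintegral_mono fun a => ?_
        rw [exponentialPDF_eq]
        split_ifs with h
        · apply ENNReal.ofReal_le_one.2
          simp [h]
        · simp
    _ = volume A := by simp

lemma ex1_Ioi {t : ℝ} (ht : 0 ≤ t) : ex1.real (Ioi t) = Real.exp (-t) := by
  rw [← compl_Iic, probReal_compl_eq_one_sub measurableSet_Iic, ex1_Iic ht]; ring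

lemma ex1_Ioc {s t : ℝ} (hs : 0 ≤ s) (hst : s ≤ t) :
    ex1.real (Ioc s t) = Real.exp (-s) - Real.exp (-t) := by
  rw [← Iic_sdiff_Iic, measureReal_diff (Iic_subset_Iic.2 hst) measurableSet_Iic, ex1_Iic hs,
    ex1_Iic (hs.trans hst)]; ring

lemma ae_pos : ∀ᵐ x ∂nu, ∀ i, 0 < x i := by
  rw [ae_all_iff]
  intro i
  refine ae_eval ex1 (p := fun t => 0 < t) ?_ i
  rw [ae_iff]
  have h : ex1.real (Iic 0) = 0 := by rw [ex1_Iic le_rfl]; simp
  have : {a : ℝ | ¬ 0 < a} = Iic 0 := by ext a; simp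
  rw [this]
  rwa [measureReal_eq_zero_iff] at h

lemma nu_two {A B : Set ℝ} (hA : MeasurableSet A) (hB : MeasurableSet B) :
    nu.real {x | x 0 ∈ A ∧ x 1 ∈ B} = ex1.real A * ex1.real B := by
  have := real_inter ex1 (S := {0}) (T := {1}) (by simp)
    (Dep.atom (X := ℝ) (mem_singleton (0 : ℕ)) hA) (Dep.atom (X := ℝ) (mem_singleton (1 : ℕ)) hB)
  rw [real_atom ex1 _ hA, real_atom ex1 _ hB] at this
  exact this

lemma nu_all_le {T : ℝ} (hT : 0 ≤ T) (k : ℕ) :
    nu.real {x | ∀ i < k, x i ≤ T} = (1 - Real.exp (-T)) ^ k := by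
  have := real_biInter ex1 (Finset.range k) (fun i => {i}) (fun i => {x : ℕ → ℝ | x i ∈ Iic T})
    (fun i _ j _ h => by simpa using h) (fun i _ => Dep.atom (X := ℝ) (mem_singleton i) measurableSet_Iic)
  simp only [real_atom ex1 _ measurableSet_Iic, ex1_Iic hT, Finset.prod_const,
    Finset.card_range] at this
  rw [← this]; congr 1; ext x; simp

lemma nu_Sm_mem {T : ℝ} (hT : 0 ≤ T) (k : ℕ) (a τ : ℝ) :
    nu {x | Sm k x ∈ Icc a (a + τ) ∧ ∀ i < k, x i ≤ T}
      ≤ ENNReal.ofReal τ * ENNReal.ofReal ((1 - Real.exp (-T)) ^ k) := by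
  have h := slice_bound ex1 (S := {k}) (T := Iio k) (by simp) (f := fun x : ℕ → ℝ => x k)
    (g := fun x : ℕ → ℝ => fun i : Fin k => x i) (meas_eval (mem_singleton k))
    (@measurable_pi_lambda _ _ _ (mS ℝ _) _ _ fun i => meas_eval i.2)
    (A := {z | z.1 + ∑ i, z.2 i ∈ Icc a (a + τ) ∧ ∀ i, z.2 i ≤ T})
    (by
      refine MeasurableSet.inter (s₁ := {z : ℝ × (Fin k → ℝ) | z.1 + ∑ i, z.2 i ∈ Icc a (a + τ)})
        (s₂ := {z | ∀ i, z.2 i ≤ T}) ?_ ?_
      · exact (by fun_prop : Measurable fun z : ℝ × (Fin k → ℝ) => z.1 + ∑ i, z.2 i)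
          measurableSet_Icc
      · rw [ofPred_forall]
        exact MeasurableSet.iInter fun i => measurableSet_le (by fun_prop) measurable_const)
    (C := {y | ∀ i, y i ≤ T})
    (by
      rw [ofPred_forall]
      exact MeasurableSet.iInter fun i => measurableSet_le (by fun_prop) measurable_const)
    (ENNReal.ofReal τ)
    (by
      intro y hy
      rw [Measure.infinitePi_map_eval]
      calc ex1 _ ≤ ex1 (Icc (a - ∑ i, y i) (a - ∑ i, y i + τ)) := by
            refine measure_mono fun x hx => ?_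
            obtain ⟨⟨h1, h2⟩, -⟩ := hx
            constructor <;> simp only at h1 h2 <;> linarith
        _ ≤ volume (Icc (a - ∑ i, y i) (a - ∑ i, y i + τ)) := ex1_le_vol _ measurableSet_Icc
        _ = ENNReal.ofReal τ := by simp)
    (by intro y hy x hx; exact hy hx.2)
  have e1 : {x : ℕ → ℝ | Sm k x ∈ Icc a (a + τ) ∧ ∀ i < k, x i ≤ T} =
      {x | (x k, fun i : Fin k => x i) ∈
        {z : ℝ × (Fin k → ℝ) | z.1 + ∑ i, z.2 i ∈ Icc a (a + τ) ∧ ∀ i, z.2 i ≤ T}} := by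
    ext x
    simp only [Sm, mem_setOf_eq, Finset.sum_range_succ, Fin.forall_iff,
      Finset.sum_range (f := x), add_comm (x k)]
  have e2 : {x : ℕ → ℝ | (fun i : Fin k => x i) ∈ {y : Fin k → ℝ | ∀ i, y i ≤ T}} =
      {x | ∀ i < k, x i ≤ T} := by
    ext x; simp only [mem_setOf_eq, Fin.forall_iff]
  rw [e1]
  refine h.trans (le_of_eq ?_)
  rw [e2, ← nu_all_le hT k, ofReal_measureReal]

lemma le_Sm {x : ℕ → ℝ} (hx : ∀ i, 0 < x i) {i k : ℕ} (h : i ≤ k) : x i ≤ Sm k x :=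
  Finset.single_le_sum (f := x) (fun j _ => (hx j).le) (Finset.mem_range.2 (by omega))

lemma Sm_strictMono {x : ℕ → ℝ} (hx : ∀ i, 0 < x i) : StrictMono fun k => Sm k x := by
  refine strictMono_nat_of_lt_succ fun k => ?_
  simp only [Sm, Finset.sum_range_succ _ (k + 1)]
  linarith [hx (k + 1)]

lemma Sm_zero (x : ℕ → ℝ) : Sm 0 x = x 0 := by simp [Sm]

/-- The probability of a bar in a short interval. -/
lemma nu_bar_mem {T : ℝ} (hT : 0 ≤ T) (a τ : ℝ) (hτ : 0 ≤ τ) :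
    nu.real {x | ∃ k, Sm k x ≤ T ∧ Sm k x ∈ Icc a (a + τ)} ≤ τ * Real.exp T := by
  have hp0 : 0 ≤ 1 - Real.exp (-T) := by
    have := Real.exp_le_one_iff.2 (neg_nonpos.2 hT); linarith
  have hp1 : 1 - Real.exp (-T) < 1 := by linarith [Real.exp_pos (-T)]
  have h1 : nu {x | ∃ k, Sm k x ≤ T ∧ Sm k x ∈ Icc a (a + τ)} ≤
      nu (⋃ k, {x | Sm k x ∈ Icc a (a + τ) ∧ ∀ i < k, x i ≤ T}) := by
    refine measure_mono_ae ?_
    filter_upwards [ae_pos] with x hx h
    obtain ⟨k, h1, h2⟩ := h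
    exact mem_iUnion.2 ⟨k, h2, fun i hi => (le_Sm hx hi.le).trans h1⟩
  have h2 := (h1.trans (measure_iUnion_le _)).trans (ENNReal.tsum_le_tsum fun k => nu_Sm_mem hT k a τ)
  rw [ENNReal.tsum_mul_left, ← ENNReal.ofReal_tsum_of_nonneg (fun k => by positivity)
    (summable_geometric_of_lt_one hp0 hp1), tsum_geometric_of_lt_one hp0 hp1,
    ← ENNReal.ofReal_mul hτ] at h2
  have h3 : (1 - (1 - Real.exp (-T)))⁻¹ = Real.exp T := by
    simp [Real.exp_neg]
  rw [h3] at h2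
  exact ENNReal.toReal_le_of_le_ofReal (by positivity) h2

lemma nu_Sm_atom (k : ℕ) (t : ℝ) : nu {x | Sm k x = t} = 0 := by
  have hT : 0 ≤ |t| := abs_nonneg t
  have h := nu_bar_mem hT t 0 le_rfl
  have h2 : nu.real {x | Sm k x = t} ≤ 0 := by
    refine le_trans (measureReal_mono ?_) (h.trans (by simp))
    intro x hx
    exact ⟨k, by rw [hx]; exact le_abs_self t, by rw [hx]; simp⟩
  exact (measureReal_eq_zero_iff).1 (le_antisymm h2 measureReal_nonneg)

lemma ae_fin (T : ℝ) (hT : 0 ≤ T) : ∀ᵐ x ∂nu, ∃ k, T < Sm k x := by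
  have hp0 : 0 ≤ 1 - Real.exp (-T) := by
    have := Real.exp_le_one_iff.2 (neg_nonpos.2 hT); linarith
  have hp1 : 1 - Real.exp (-T) < 1 := by linarith [Real.exp_pos (-T)]
  have h0 : nu.real {x | ∀ i, x i ≤ T} = 0 := by
    refine le_antisymm ?_ measureReal_nonneg
    refine ge_of_tendsto' (tendsto_pow_atTop_nhds_zero_of_lt_one hp0 hp1) fun k => ?_
    rw [← nu_all_le hT k]
    exact measureReal_mono fun x hx i _ => hx i
  rw [measureReal_eq_zero_iff] at h0
  filter_upwards [ae_pos, measure_eq_zero_iff_ae_notMem.1 h0] with x hx h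
  simp only [not_forall, not_le] at h
  obtain ⟨i, hi⟩ := h
  exact ⟨i, hi.trans_le (le_Sm hx le_rfl)⟩

/-- Bars on different edges have different times. -/
lemma ae_ne {ι : Type} {e e' : ι} (h : e ≠ e') (k l : ℕ) :
    ∀ᵐ ω ∂(PP nu ι), Sm k (ω e) ≠ Sm l (ω e') := by
  have h := slice_bound nu (S := {e}) (T := {e'}) (by simpa using h)
    (f := fun ω : ι → ℕ → ℝ => Sm k (ω e)) (g := fun ω : ι → ℕ → ℝ => Sm l (ω e'))
    ((meas_Sm k).comp (meas_eval (mem_singleton e))) ((meas_Sm l).comp (meas_eval (mem_singleton e')))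
    (A := {z | z.1 = z.2}) (measurableSet_eq_fun measurable_fst measurable_snd)
    (C := univ) MeasurableSet.univ 0
    (by
      intro y _
      have e1 : (fun ω : ι → ℕ → ℝ => Sm k (ω e)) = Sm k ∘ (fun ω : ι → ℕ → ℝ => ω e) := rfl
      have e2 : {x : ℝ | (x, y) ∈ {z : ℝ × ℝ | z.1 = z.2}} = {y} := by ext x; simp
      rw [e1, e2, ← Measure.map_map (meas_Sm k) (measurable_pi_apply e),
        Measure.infinitePi_map_eval, Measure.map_apply (meas_Sm k) (measurableSet_singleton y)]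
      exact (nu_Sm_atom k y).le)
    (by simp)
  rw [ae_iff]
  simpa using h

/-- Generic configurations. -/
structure Gen {ι : Type} (T : ℝ) (ω : ι → ℕ → ℝ) : Prop where
  pos : ∀ e i, 0 < ω e i
  fin : ∀ e, ∃ k, T < Sm k (ω e)
  ne : ∀ e e', e ≠ e' → ∀ k l, Sm k (ω e) ≠ Sm l (ω e')

lemma ae_gen {ι : Type} [Countable ι] (T : ℝ) (hT : 0 ≤ T) : ∀ᵐ ω ∂(PP nu ι), Gen T ω := by
  have h1 : ∀ᵐ ω ∂(PP nu ι), ∀ e i, 0 < ω e i := ae_all_iff.2 fun e => ae_eval nu ae_pos e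
  have h2 : ∀ᵐ ω ∂(PP nu ι), ∀ e, ∃ k, T < Sm k (ω e) :=
    ae_all_iff.2 fun e => ae_eval nu (ae_fin T hT) e
  have h3 : ∀ᵐ ω ∂(PP nu ι), ∀ e e', e ≠ e' → ∀ k l, Sm k (ω e) ≠ Sm l (ω e') := by
    refine ae_all_iff.2 fun e => ae_all_iff.2 fun e' => ?_
    by_cases h : e = e'
    · simp [h]
    · simp only [ne_eq, h, not_false_eq_true, forall_const]
      exact ae_all_iff.2 fun k => ae_all_iff.2 fun l => ae_ne h k l
  filter_upwards [h1, h2, h3] with ω a b c using ⟨a, b, c⟩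

/-! The states of an edge. -/

/-- At least one bar. -/
def Op (T : ℝ) : Set (ℕ → ℝ) := {x | x 0 ∈ Iic T}
/-- Possibly several bars. -/
def Mu (T : ℝ) : Set (ℕ → ℝ) := {x | x 0 ∈ Iic T ∧ x 1 ∈ Iic T}
/-- Exactly one bar, at a time in `I`. -/
def Sg (T : ℝ) (I : Set ℝ) : Set (ℕ → ℝ) := {x | x 0 ∈ I ∧ x 1 ∈ Ioi T}

lemma meas_Op (T : ℝ) : MeasurableSet (Op T) := measurable_pi_apply 0 measurableSet_Iic
lemma meas_Mu (T : ℝ) : MeasurableSet (Mu T) :=
  (measurable_pi_apply 0 measurableSet_Iic).inter (measurable_pi_apply 1 measurableSet_Iic)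
lemma meas_Sg (T : ℝ) {I : Set ℝ} (hI : MeasurableSet I) : MeasurableSet (Sg T I) :=
  (measurable_pi_apply 0 hI).inter (measurable_pi_apply 1 measurableSet_Ioi)

lemma nu_Op {T : ℝ} (hT : 0 ≤ T) : nu.real (Op T) = 1 - Real.exp (-T) := by
  rw [← ex1_Iic hT]; exact real_atom ex1 0 measurableSet_Iic

lemma nu_Mu {T : ℝ} (hT : 0 ≤ T) : nu.real (Mu T) = (1 - Real.exp (-T)) ^ 2 := by
  rw [Mu, nu_two measurableSet_Iic measurableSet_Iic, ex1_Iic hT]; ring

lemma nu_Sg {T : ℝ} (hT : 0 ≤ T) {I : Set ℝ} (hI : MeasurableSet I) :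
    nu.real (Sg T I) = ex1.real I * Real.exp (-T) := by
  rw [Sg, nu_two hI measurableSet_Ioi, ex1_Ioi hT]

end Pool.Agent.H319Z.Stir
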