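import Pool.Agent.H319Z.Stir.Det

/-! Bounded degree graphs: subcritical clusters are finite, and the model is well defined. -/

set_option maxHeartbeats 400000

open MeasureTheory ProbabilityTheory Set Relation

namespace Pool.Agent.H319Z.Stir

variable {V : Type} [Countable V] {G : SimpleGraph V}

/-- Pairs inside `S`. -/
def In (S : Set V) : Set (Sym2 V) := {e | ∀ x ∈ e, x ∈ S}

omit [Countable V] in
lemma mk_mem_In {S : Set V} {a b : V} : s(a, b) ∈ In S ↔ a ∈ S ∧ b ∈ S := by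
  simp [In]

omit [Countable V] in
lemma In_mono {S S' : Set V} (h : S ⊆ S') : In S ⊆ In S' := fun _ he x hx => h (he x hx)

/-- A self-avoiding path of `n` edges in state `B`, from `u`, inside `S`. -/
def Saw (G : SimpleGraph V) (B : Set (ℕ → ℝ)) : ℕ → V → Set V → Set (Sym2 V → ℕ → ℝ)
  | 0, _, _ => univ
  | n + 1, u, S => {ω | ∃ y, (G.Adj u y ∧ y ∈ S) ∧ ω s(u, y) ∈ B ∧ ω ∈ Saw G B n y (S \ {u})}

lemma dep_Saw {B : Set (ℕ → ℝ)} (hB : MeasurableSet B) (n : ℕ) :
    ∀ u S, u ∈ S → Dep (In S) (Saw G B n u S) := by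
  induction n with
  | zero => intro u S _; exact Dep.univ
  | succ n ih =>
    intro u S hu
    refine Dep.ex fun y => Dep.guard fun hy => Dep.and (Dep.atom (mk_mem_In.2 ⟨hu, hy.2⟩) hB) ?_
    exact (ih y (S \ {u}) ⟨hy.2, hy.1.ne.symm⟩).mono (In_mono diff_subset)

lemma real_Saw {Δ : ℕ} (hG : ∀ x, (G.neighborSet x).Finite)
    (hΔ : ∀ x, (G.neighborSet x).ncard ≤ Δ) {B : Set (ℕ → ℝ)} (hB : MeasurableSet B) (n : ℕ) :
    ∀ u S, u ∈ S → (PP nu (Sym2 V)).real (Saw G B n u S) ≤ (Δ * nu.real B) ^ n := by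
  induction n with
  | zero => intro u S _; simp [Saw]
  | succ n ih =>
    intro u S hu
    have hsub : Saw G B (n + 1) u S ⊆ ⋃ y ∈ (hG u).toFinset,
        ({ω | ω s(u, y) ∈ B} ∩ {ω | y ∈ S ∧ ω ∈ Saw G B n y (S \ {u})}) := by
      rintro ω ⟨y, ⟨h1, h2⟩, h3, h4⟩
      simp only [mem_iUnion]
      exact ⟨y, by simpa using h1, h3, h2, h4⟩
    refine (rmono hsub).trans ((measureReal_biUnion_finset_le _ _).trans ?_)
    have hq : 0 ≤ nu.real B := measureReal_nonneg
    calc _ ≤ ∑ _y ∈ (hG u).toFinset, nu.real B * (Δ * nu.real B) ^ n := by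
          refine Finset.sum_le_sum fun y hy => ?_
          have hy' : G.Adj u y := by simpa using hy
          rw [real_inter nu (S := {s(u, y)}) (T := In (S \ {u})) _
            (Dep.atom (mem_singleton _) hB)
            (Dep.guard fun h => (dep_Saw (G := G) hB n y (S \ {u}) ⟨h, hy'.ne.symm⟩).mem), real_atom nu _ hB]
          · refine mul_le_mul_of_nonneg_left ?_ hq
            by_cases h : y ∈ S
            · simpa [h] using ih y (S \ {u}) ⟨h, hy'.ne.symm⟩
            · simp only [h, false_and, setOf_false, measureReal_empty]; positivity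
          · simp [mk_mem_In]
      _ ≤ _ := by
          rw [Finset.sum_const, nsmul_eq_mul, pow_succ, ← ncard_eq_toFinset_card _ (hG u)]
          have : ((G.neighborSet u).ncard : ℝ) ≤ Δ := by exact_mod_cast hΔ u
          have h2 : 0 ≤ nu.real B * (Δ * nu.real B) ^ n := by positivity
          nlinarith

omit [Countable V] in
lemma saw_of_infinite (hG : ∀ x, (G.neighborSet x).Finite) {B : Set (ℕ → ℝ)}
    (ω : Sym2 V → ℕ → ℝ) (n : ℕ) : ∀ u S, {x | ReflTransGen
      (fun a b => a ∈ S ∧ b ∈ S ∧ (G.Adj a b ∧ ω s(a, b) ∈ B)) u x}.Infinite →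
      ω ∈ Saw G B n u S := by
  induction n with
  | zero => intro u S _; trivial
  | succ n ih =>
    intro u S h
    by_contra hn
    apply h
    have hfin : ∀ y ∈ G.neighborSet u, {x | (y ∈ S ∧ ω s(u, y) ∈ B) ∧ ReflTransGen
        (fun a b => a ∈ S \ {u} ∧ b ∈ S \ {u} ∧ (G.Adj a b ∧ ω s(a, b) ∈ B)) y x}.Finite := by
      intro y hy
      by_cases hc : y ∈ S ∧ ω s(u, y) ∈ B
      · by_contra hinf
        refine hn ⟨y, ⟨hy, hc.1⟩, hc.2, ih y _ fun hf => hinf (hf.subset fun x hx => hx.2)⟩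
      · simp [hc]
    refine (((hG u).biUnion hfin).insert u).subset fun x hx => ?_
    by_cases hxu : x = u
    · exact Or.inl hxu
    · rcases last_exit _ S u hx hxu with h | ⟨y, h1, h2, -, h4⟩
      · exact absurd rfl h.1
      · exact Or.inr (mem_biUnion (show y ∈ G.neighborSet u from h2.1) ⟨⟨h1, h2.2⟩, h4⟩)

lemma ae_cluster_finite {Δ : ℕ} (hG : ∀ x, (G.neighborSet x).Finite)
    (hΔ : ∀ x, (G.neighborSet x).ncard ≤ Δ) {B : Set (ℕ → ℝ)} (hB : MeasurableSet B)
    (hq : Δ * nu.real B < 1) (v : V) : ∀ᵐ ω ∂(PP nu (Sym2 V)), {x | ReflTransGen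
      (fun a b => a ∈ univ ∧ b ∈ univ ∧ (G.Adj a b ∧ ω s(a, b) ∈ B)) v x}.Finite := by
  rw [ae_iff, ← measureReal_eq_zero_iff]
  refine le_antisymm ?_ measureReal_nonneg
  have hq0 : 0 ≤ Δ * nu.real B := mul_nonneg (Nat.cast_nonneg _) measureReal_nonneg
  refine ge_of_tendsto' (tendsto_pow_atTop_nhds_zero_of_lt_one hq0 hq) fun n => ?_
  exact (rmono fun ω h => saw_of_infinite hG ω n v univ h).trans
    (real_Saw hG hΔ hB n v univ trivial)

lemma meas_OpI (T a τ : ℝ) : MeasurableSet (OpI T a τ) := by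
  unfold OpI
  rw [ofPred_exists]
  exact MeasurableSet.iUnion fun k =>
    (measurableSet_le (meas_Sm k) measurable_const).inter (meas_Sm k measurableSet_Icc)

theorem wellDefined {Δ : ℕ} (hG : ∀ x, (G.neighborSet x).Finite)
    (hΔ : ∀ x, (G.neighborSet x).ncard ≤ Δ) : WellDefined G := by
  intro T hT
  set τ : ℝ := 1 / ((Δ + 1) * Real.exp T) with hτ
  have hτ0 : 0 < τ := by positivity
  have h : ∀ᵐ ω ∂(PP nu (Sym2 V)), ∀ (j : ℕ) (v : V), {x | ReflTransGen
      (fun a b => a ∈ univ ∧ b ∈ univ ∧ (G.Adj a b ∧ ω s(a, b) ∈ OpI T (j * τ) τ)) v x}.Finite := by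
    refine ae_all_iff.2 fun j => ae_all_iff.2 fun v =>
      ae_cluster_finite hG hΔ (meas_OpI _ _ _) ?_ v
    have h1 : nu.real (OpI T (j * τ) τ) ≤ τ * Real.exp T := nu_bar_mem hT.le _ _ hτ0.le
    have h2 : τ * Real.exp T = 1 / (Δ + 1) := by rw [hτ]; field_simp
    calc (Δ : ℝ) * nu.real (OpI T (j * τ) τ) ≤ Δ * (1 / (Δ + 1)) := by
          rw [← h2]; gcongr
      _ < 1 := by rw [mul_one_div, div_lt_one (by positivity)]; linarith
  rw [law_eq]
  filter_upwards [h, ae_gen T hT.le] with ω h1 h2 using no_explosion h2 hG hτ0 h1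

end Pool.Agent.H319Z.Stir
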