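import Pool.Agent.H319Z.Stir.Chord
import Pool.Agent.H319Z.Stir.WD

/-! The graph: a `D`-ary tree with `J` cliques of size `M + 1` attached at every vertex. -/

set_option maxHeartbeats 400000

open MeasureTheory ProbabilityTheory Set Relation

namespace Pool.Agent.H319Z.Stir

/-- Vertices. -/
abbrev VT (D J M : ℕ) : Type := List (Fin D) × Option (Fin J × Fin M)

lemma Sg_not_Mu {T : ℝ} {I : Set ℝ} {x : ℕ → ℝ} (h : x ∈ Sg T I) : x ∉ Mu T :=
  fun h' => lt_irrefl _ (lt_of_lt_of_le (mem_Ioi.1 h.2) (mem_Iic.1 h'.2))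

variable {D J M : ℕ}

/-- The `j`-th clique at the tree vertex `w`. -/
def ph (w : List (Fin D)) (j : Fin J) (i : Option (Fin M)) : VT D J M :=
  (w, i.map fun i => (j, i))

/-- The graph. -/
def GG (D J M : ℕ) : SimpleGraph (VT D J M) := SimpleGraph.fromRel fun x y =>
  (∃ a w, x = (a :: w, none) ∧ y = (w, none)) ∨ (∃ w j i i', x = ph w j i ∧ y = ph w j i')

/-- The tree edge above `w`. -/
def eT (J M : ℕ) (w : List (Fin D)) : Sym2 (VT D J M) := s((w, none), (w.tail, none))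

lemma ph_inj (w : List (Fin D)) (j : Fin J) : Function.Injective (ph (M := M) w j) := by
  rintro (_ | a) (_ | b) h <;> simp_all [ph]

@[simp] lemma ph_none (w : List (Fin D)) (j : Fin J) : ph (M := M) w j none = (w, none) := rfl
@[simp] lemma ph_fst (w : List (Fin D)) (j : Fin J) (i : Option (Fin M)) : (ph w j i).1 = w := rfl

lemma adj_iff {x y : VT D J M} : (GG D J M).Adj x y ↔ x ≠ y ∧
    ((∃ a w, x = (a :: w, none) ∧ y = (w, none)) ∨ (∃ a w, y = (a :: w, none) ∧ x = (w, none)) ∨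
      ∃ w j i i', x = ph w j i ∧ y = ph w j i') := by
  rw [GG, SimpleGraph.fromRel_adj]
  refine and_congr_right fun _ => ⟨?_, ?_⟩
  · rintro ((h | h) | (h | ⟨w, j, i, i', h1, h2⟩))
    · exact Or.inl h
    · exact Or.inr (Or.inr h)
    · exact Or.inr (Or.inl h)
    · exact Or.inr (Or.inr ⟨w, j, i', i, h2, h1⟩)
  · rintro (h | h | h)
    · exact Or.inl (Or.inl h)
    · exact Or.inr (Or.inl h)
    · exact Or.inl (Or.inr h)

lemma adj_tree (a : Fin D) (w : List (Fin D)) : (GG D J M).Adj (a :: w, none) (w, none) :=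
  adj_iff.2 ⟨by simp, Or.inl ⟨a, w, rfl, rfl⟩⟩

lemma adj_ph (w : List (Fin D)) (j : Fin J) {i i' : Option (Fin M)} (h : i ≠ i') :
    (GG D J M).Adj (ph w j i) (ph w j i') :=
  adj_iff.2 ⟨(ph_inj w j).ne h, Or.inr (Or.inr ⟨w, j, i, i', rfl, rfl⟩)⟩

lemma cut {x y : VT D J M} {w : List (Fin D)} (h : (GG D J M).Adj x y) (hx : w <:+ x.1)
    (hy : ¬ w <:+ y.1) : x = (w, none) ∧ y = (w.tail, none) := by
  rcases (adj_iff.1 h).2 with ⟨a, u, rfl, rfl⟩ | ⟨a, u, rfl, rfl⟩ | ⟨u, j, i, i', rfl, rfl⟩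
  · rcases List.suffix_cons_iff.1 hx with rfl | h
    · exact ⟨rfl, rfl⟩
    · exact absurd h hy
  · exact absurd (hx.trans (List.suffix_cons a u)) hy
  · exact absurd hx hy

lemma adj_of_ph {w : List (Fin D)} {j : Fin J} {i : Fin M} {x : VT D J M}
    (h : (GG D J M).Adj (ph w j (some i)) x) : ∃ i', x = ph w j i' := by
  rcases (adj_iff.1 h).2 with ⟨a, u, h1, rfl⟩ | ⟨a, u, rfl, h1⟩ | ⟨u, j', i0, i', h1, rfl⟩
  · simp [ph] at h1
  · simp [ph] at h1
  · cases i0 with
    | none => simp [ph] at h1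
    | some i0 =>
      simp only [ph, Option.map_some, Prod.mk.injEq, Option.some.injEq] at h1
      obtain ⟨rfl, rfl, rfl⟩ := h1
      exact ⟨i', rfl⟩

lemma regions (w : List (Fin D)) (y : VT D J M) : ¬ w <:+ y.1 ∨ (∃ a, a :: w <:+ y.1) ∨
    y = (w, none) ∨ ∃ j i, y = ph w j (some i) := by
  obtain ⟨u, o⟩ := y
  by_cases h : w <:+ u
  · obtain ⟨t, rfl⟩ := h
    rcases List.eq_nil_or_concat t with rfl | ⟨t, a, rfl⟩
    · rcases o with _ | ⟨j, i⟩
      · exact Or.inr (Or.inr (Or.inl rfl))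
      · exact Or.inr (Or.inr (Or.inr ⟨j, i, rfl⟩))
    · exact Or.inr (Or.inl ⟨a, t, by simp⟩)
  · exact Or.inl h

lemma not_cons_suffix (a : Fin D) (w : List (Fin D)) : ¬ a :: w <:+ w := fun h => by
  have := h.length_le; simp at this

lemma connected : (GG D J M).Connected := by
  have h1 : ∀ w : List (Fin D), (GG D J M).Reachable (w, none) ([], none) := by
    intro w
    induction w with
    | nil => rfl
    | cons a w ih => exact (adj_tree a w).reachable.trans ih
  have h2 : ∀ x : VT D J M, (GG D J M).Reachable x ([], none) := by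
    rintro ⟨w, _ | ⟨j, i⟩⟩
    · exact h1 w
    · exact (adj_ph w j (i := some i) (i' := none) (by simp)).reachable.trans (h1 w)
  have : Nonempty (VT D J M) := ⟨([], none)⟩
  exact ⟨fun x y => (h2 x).trans (h2 y).symm⟩

lemma nbr_sub (x : VT D J M) : (GG D J M).neighborSet x ⊆ range
    (fun z : Option (Fin D) ⊕ Option (Fin J × Fin M) => match z with
      | .inl none => (x.1.tail, none)
      | .inl (some a) => (a :: x.1, none)
      | .inr o => (x.1, o)) := by
  intro y hy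
  rcases (adj_iff.1 hy).2 with ⟨a, u, rfl, rfl⟩ | ⟨a, u, rfl, rfl⟩ | ⟨u, j', i0, i', rfl, rfl⟩
  · exact ⟨.inl none, rfl⟩
  · exact ⟨.inl (some a), rfl⟩
  · exact ⟨.inr _, rfl⟩

lemma nbr_finite (x : VT D J M) : ((GG D J M).neighborSet x).Finite :=
  (finite_range _).subset (nbr_sub x)

lemma nbr_card (x : VT D J M) : ((GG D J M).neighborSet x).ncard ≤ D + 1 + (J * M + 1) := by
  refine (ncard_le_ncard (nbr_sub x) (finite_range _)).trans ?_
  rw [← image_univ]
  refine (ncard_image_le (toFinite _)).trans ?_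
  simp [ncard_univ]

variable {T : ℝ} {ω : Sym2 (VT D J M) → ℕ → ℝ}

lemma out_closed {w : List (Fin D)} {A : Set (VT D J M)} (hw : (w, none) ∈ A) {y y' : VT D J M}
    (h : ReflTransGen (rO (GG D J M) T ω A) y y') (hy : ¬ w <:+ y.1) : ¬ w <:+ y'.1 := by
  induction h with
  | refl => exact hy
  | tail _ h ih => exact fun h' => h.2.1 ((cut h.2.2.1.symm h' ih).1 ▸ hw)

lemma uni (hg : Gen T ω) {w : List (Fin D)} {A : Set (VT D J M)} (hw : (w, none) ∈ A)
    (hA : ∀ x ∈ A, x.1 = w) (h1 : ω (eT J M w) ∉ Mu T) (h2 : ∀ a, ω (eT J M (a :: w)) ∉ Mu T)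
    (h3 : ∀ j, ω ∉ Bad (ph w j) T (ph w j ⁻¹' A)) : Uni (GG D J M) T ω A := by
  intro x hx x' hx' y hy y' hy' t t' hr hb hb'
  have sx : w <:+ x.1 := by rw [hA x hx]
  have sx' : w <:+ x'.1 := by rw [hA x' hx']
  rcases regions w y with h | ⟨a, h⟩ | h | ⟨j, i, rfl⟩
  · obtain ⟨rfl, rfl⟩ := cut hb.1 sx h
    obtain ⟨rfl, rfl⟩ := cut hb'.1 sx' (out_closed hw hr h)
    exact ⟨rfl, (hb.single hg h1).trans (hb'.single hg h1).symm⟩
  · have h' : a :: w <:+ y'.1 := by
      clear hb' hy'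
      induction hr with
      | refl => exact h
      | tail _ hs ih =>
        by_contra hn
        exact hs.2.1 ((cut hs.2.2.1 ih hn).2 ▸ hw)
    obtain ⟨rfl, rfl⟩ := cut hb.1.symm h (by rw [hA x hx]; exact not_cons_suffix a w)
    obtain ⟨rfl, rfl⟩ := cut hb'.1.symm h' (by rw [hA x' hx']; exact not_cons_suffix a w)
    exact ⟨rfl, (hb.symm.single hg (h2 a)).trans (hb'.symm.single hg (h2 a)).symm⟩
  · exact absurd (h ▸ hw) hy
  · have h' : ∃ i', y' = ph w j (some i') ∧ ω ∈ Rc (ph w j) T (ph w j ⁻¹' A)ᶜ (some i) (some i') := by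
      clear hb' hy'
      induction hr with
      | refl => exact ⟨i, rfl, ReflTransGen.refl⟩
      | tail _ hs ih =>
        obtain ⟨i', rfl, h'⟩ := ih
        obtain ⟨i'', rfl⟩ := adj_of_ph hs.2.2.1
        cases i'' with
        | none => exact absurd hw hs.2.1
        | some i'' =>
          exact ⟨i'', rfl, ReflTransGen.tail h' ⟨hs.1, hs.2.1,
            fun e => hs.2.2.1.ne (by rw [e]), hs.2.2.2⟩⟩
    obtain ⟨i', rfl, hR⟩ := h'
    obtain ⟨k, rfl⟩ := adj_of_ph hb.1.symm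
    obtain ⟨k', rfl⟩ := adj_of_ph hb'.1.symm
    by_cases he : (k, some i) = (k', some i')
    · obtain ⟨rfl, e⟩ := Prod.mk.inj he
      obtain rfl := Option.some.inj e
      have hm : ω s(ph w j k, ph w j (some i)) ∉ Mu T := fun hm =>
        h3 j (Or.inl ⟨k, some i, ⟨hx, hy⟩, hm⟩)
      exact ⟨rfl, (hb.single hg hm).trans (hb'.single hg hm).symm⟩
    · exact absurd (Or.inr ⟨k, k', some i, some i', ⟨hx, hx', hy, hy', he⟩, hb.op hg, hb'.op hg,
        hR⟩) (h3 j)

lemma cross (hg : Gen T ω) {w : List (Fin D)} {p q : VT D J M × ℝ}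
    (h : ReflTransGen (Step (GG D J M) T ω) p q) (hp : ¬ w <:+ p.1.1) (hq : w <:+ q.1.1) :
    ω (eT J M w) ∈ Op T ∧ ∃ t, ReflTransGen (Step (GG D J M) T ω) p ((w, none), t) := by
  induction h with
  | refl => exact absurd hq hp
  | @tail b c hb hs ih =>
    by_cases hb' : w <:+ b.1.1
    · exact ih hb'
    · rcases hs with hs | hs
      · obtain ⟨e1, e2⟩ := cut hs.1.1.symm hq hb'
        have := hs.1.symm.op hg
        rw [e1, e2] at this
        exact ⟨this, c.2, by rw [← e1]; exact hb.tail (Or.inl hs)⟩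
      · rw [hs.1] at hq; exact absurd hq hb'

/-- Total depth of a pair. -/
def ht : Sym2 (VT D J M) → ℕ := Sym2.lift ⟨fun x y => x.1.length + y.1.length, fun _ _ => add_comm _ _⟩

lemma ht_eT (a : Fin D) (w : List (Fin D)) : ht (eT J M (a :: w)) = 2 * w.length + 1 := by
  simp [ht, eT]; ring

lemma ht_EdIn {w : List (Fin D)} {j : Fin J} {e : Sym2 (VT D J M)}
    (h : e ∈ EdIn (ph w j) univ) : ht e = 2 * w.length := by
  obtain ⟨x, -, y, -, -, rfl⟩ := h
  simp [ht]; ring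

lemma EdOut_sub {V W : Type} (φ : W → V) (A : Set W) : EdOut φ A ⊆ EdIn φ univ := by
  rintro _ ⟨x, y, h, -, rfl⟩
  exact mem_EdIn φ (mem_univ _) (mem_univ _) h

lemma eT_inj {a b : Fin D} {w : List (Fin D)} (h : eT J M (a :: w) = eT J M (b :: w)) : a = b := by
  simp only [eT, List.tail_cons, Sym2.eq, Sym2.rel_iff', Prod.mk.injEq, List.cons.injEq, and_true,
    Prod.swap_prod_mk, List.cons_ne_self, false_and, or_false] at h
  exact h

lemma EdIn_disj {w : List (Fin D)} {j j' : Fin J} (h : j ≠ j') :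
    Disjoint (EdIn (ph (M := M) w j) univ) (EdIn (ph w j') univ) := by
  rw [disjoint_left]
  rintro _ ⟨x, -, y, -, hxy, rfl⟩ ⟨x', -, y', -, -, e⟩
  rcases x with _ | x <;> rcases y with _ | y <;> rcases x' with _ | x' <;> rcases y' with _ | y' <;>
    simp_all [ph]

end Pool.Agent.H319Z.Stir
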