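import Pool.Agent.H319Z.Stir.Graph

/-! No infinite cycles at the larger parameter. -/

set_option maxHeartbeats 400000

open MeasureTheory ProbabilityTheory Set Relation

namespace Pool.Agent.H319Z.Stir

/-- Four consecutive time windows. -/
structure Win (T : ℝ) where
  Q : Fin 4 → Set ℝ
  meas : ∀ i, MeasurableSet (Q i)
  sub : ∀ i, Q i ⊆ Iic T
  lt : ∀ i j, i < j → ∀ s ∈ Q i, ∀ t ∈ Q j, s < t

variable {D J M : ℕ} {T : ℝ} (X : Win T) (K : ℕ)

variable (J M) in
/-- Exactly one clique at `w` carries a chord. -/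
def One (w : List (Fin D)) : Set (Sym2 (VT D J M) → ℕ → ℝ) :=
  ⋃ j ∈ (Finset.univ : Finset (Fin J)), (ChU (ph w j) T (X.Q 1) (X.Q 3) none K ∩
    (⋃ j' ∈ Finset.univ.erase j, Bad (ph w j') T {none})ᶜ)

variable (J M) in
/-- The passage from above `w` to the child `a :: w` is blocked. -/
def Block (w : List (Fin D)) (a : Fin D) : Set (Sym2 (VT D J M) → ℕ → ℝ) :=
  {ω | ω (eT J M w) ∈ Sg T (X.Q 0) ∧ ω (eT J M (a :: w)) ∈ Sg T (X.Q 2)} ∩
    (One J M X K w ∩ (⋃ b ∈ Finset.univ.erase a, {ω | ω (eT J M (b :: w)) ∈ Mu T})ᶜ)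

variable (J M) in
/-- The passage may be possible. -/
def Pass (w : List (Fin D)) (a : Fin D) : Set (Sym2 (VT D J M) → ℕ → ℝ) :=
  {ω | ω (eT J M w) ∈ Op T ∧ ω (eT J M (a :: w)) ∈ Op T} \ Block J M X K w a

variable (J M) in
/-- A chain of `n` possible passages below `w`. -/
def Deep : ℕ → List (Fin D) → Set (Sym2 (VT D J M) → ℕ → ℝ)
  | 0, _ => univ
  | n + 1, w => ⋃ z ∈ (Finset.univ : Finset (Fin D × Fin D)),
      (Pass J M X K (z.1 :: w) z.2 ∩ Deep n (z.2 :: z.1 :: w))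

lemma dep_One (w : List (Fin D)) : Dep {e | ht e = 2 * w.length} (One J M X K w) :=
  Dep.iUnion fun _ => Dep.iUnion fun _ =>
    ((dep_ChU (X.meas 1) (X.meas 3) none K).mono fun _ h => ht_EdIn h).inter
    (Dep.iUnion fun _ => Dep.iUnion fun _ =>
      (dep_Bad _).mono fun _ h => ht_EdIn (EdOut_sub _ _ h)).compl

lemma win_disj : Disjoint (X.Q 1) (X.Q 3) :=
  disjoint_left.2 fun s h h' => lt_irrefl _ (X.lt 1 3 (by decide) s h s h')

lemma real_One {q u : ℝ} (w : List (Fin D))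
    (hq : ∀ j, (PP nu (Sym2 (VT D J M))).real (Bad (ph w j) T {none}) ≤ q) (hq0 : 0 ≤ q)
    (hJ : J * q ≤ 1 / 2)
    (hu : ∀ j, u ≤ (PP nu (Sym2 (VT D J M))).real (ChU (ph w j) T (X.Q 1) (X.Q 3) none K)) :
    J * u / 2 ≤ (PP nu (Sym2 (VT D J M))).real (One J M X K w) := by
  have d : ∀ j : Fin J, Dep (⋃ j' ∈ Finset.univ.erase j, EdIn (ph (M := M) w j') univ)
      (⋃ j' ∈ Finset.univ.erase j, Bad (ph (M := M) w j') T {none}) := fun j =>
    Dep.iUnion fun j' => Dep.iUnion fun h => (dep_Bad _).mono ((EdOut_sub _ _).trans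
      (subset_biUnion_of_mem (u := fun j' => EdIn (ph (M := M) w j') univ) h))
  rw [One, measureReal_biUnion_finset _
    (fun j _ => (dep_ChU (X.meas 1) (X.meas 3) none K).meas.inter (d j).meas.compl)
    (fun _ _ => measure_ne_top _ _)]
  · calc (J : ℝ) * u / 2 = ∑ _j : Fin J, u * (1 / 2) := by simp; ring
      _ ≤ _ := Finset.sum_le_sum fun j _ => ?_
    rw [real_inter nu _ (dep_ChU (X.meas 1) (X.meas 3) none K) (d j).compl,
      probReal_compl_eq_one_sub (d j).meas]
    · refine mul_le_mul (hu j) ?_ (by norm_num) measureReal_nonneg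
      have h1 := real_biUnion_le (PP nu (Sym2 (VT D J M))) (Finset.univ.erase j) _ q
        (fun j _ => hq j)
      have h2 : ((Finset.univ.erase j).card : ℝ) ≤ J := by
        exact_mod_cast (Finset.card_erase_le).trans (by simp)
      nlinarith
    · simp only [disjoint_iUnion_right]
      exact fun j' hj' => EdIn_disj (Finset.ne_of_mem_erase hj').symm
  · intro j _ j' _ hne
    rw [Function.onFun, disjoint_left]
    rintro ω ⟨h1, -⟩ ⟨-, h2⟩
    obtain ⟨z, hz, h1⟩ := mem_iUnion₂.1 h1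
    have hz := mem_Cyc.1 hz
    have := Ch.bad (X.sub 1) (X.sub 3) hz.2.1 h1
    rw [hz.2.2] at this
    exact h2 (mem_iUnion₂.2 ⟨j, by simp [hne], this⟩)

lemma dep_rest (w : List (Fin D)) (a : Fin D) :
    Dep {e | ht e = 2 * w.length ∨ ∃ b, b ≠ a ∧ e = eT J M (b :: w)}
    (One J M X K w ∩ (⋃ b ∈ Finset.univ.erase a, {ω | ω (eT J M (b :: w)) ∈ Mu T})ᶜ) :=
  ((dep_One X K w).mono fun _ h => Or.inl h).inter (Dep.iUnion fun b => Dep.iUnion fun h =>
    Dep.atom (show _ ∈ {e | ht e = 2 * w.length ∨ ∃ b, b ≠ a ∧ e = eT J M (b :: w)} from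
      Or.inr ⟨b, Finset.ne_of_mem_erase h, rfl⟩) (meas_Mu T)).compl

lemma dep_Block (c : Fin D) (w : List (Fin D)) (a : Fin D) :
    Dep {e | 2 * w.length + 1 ≤ ht e ∧ ht e ≤ 2 * w.length + 3} (Block J M X K (c :: w) a) := by
  refine Dep.inter (Dep.and (Dep.atom ?_ (meas_Sg T (X.meas 0)))
    (Dep.atom ?_ (meas_Sg T (X.meas 2)))) ((dep_rest X K _ a).mono ?_)
  · simp only [mem_setOf_eq, ht_eT]; omega
  · simp only [mem_setOf_eq, ht_eT, List.length_cons]; omega
  · rintro e (h | ⟨b, -, rfl⟩)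
    · simp only [mem_setOf_eq, List.length_cons] at h ⊢; omega
    · simp only [mem_setOf_eq, ht_eT, List.length_cons]; omega

lemma dep_Pass (c : Fin D) (w : List (Fin D)) (a : Fin D) :
    Dep {e | 2 * w.length + 1 ≤ ht e ∧ ht e ≤ 2 * w.length + 3} (Pass J M X K (c :: w) a) := by
  refine Dep.inter (Dep.and (Dep.atom ?_ (meas_Op T)) (Dep.atom ?_ (meas_Op T)))
    (dep_Block X K c w a).compl
  · simp only [mem_setOf_eq, ht_eT]; omega
  · simp only [mem_setOf_eq, ht_eT, List.length_cons]; omega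

lemma eT_ne (c : Fin D) (w : List (Fin D)) (a : Fin D) :
    eT J M (c :: w) ≠ eT J M (a :: c :: w) := fun h => by
  have := congrArg ht h
  simp only [ht_eT, List.length_cons] at this; omega

lemma real_Pass {p s r : ℝ} (hp : nu.real (Op T) = p) (hm : nu.real (Mu T) = p ^ 2)
    (hs : ∀ i, nu.real (Sg T (X.Q i)) = s / 4) (c : Fin D) (w : List (Fin D)) (a : Fin D)
    (hr : r ≤ (PP nu (Sym2 (VT D J M))).real (One J M X K (c :: w))) :
    (PP nu (Sym2 (VT D J M))).real (Pass J M X K (c :: w) a) ≤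
      p ^ 2 - s ^ 2 / 16 * (r - D * p ^ 2) := by
  rw [Pass, measureReal_diff _ (dep_Block X K c w a).meas (measure_ne_top _ _),
    real_two (eT_ne c w a) (meas_Op T) (meas_Op T), hp, Block,
    real_inter nu (S := {eT J M (c :: w), eT J M (a :: c :: w)}) _
      (Dep.and (Dep.atom (by simp) (meas_Sg T (X.meas 0)))
        (Dep.atom (by simp) (meas_Sg T (X.meas 2)))) (dep_rest X K _ a),
    real_two (eT_ne c w a) (meas_Sg T (X.meas 0)) (meas_Sg T (X.meas 2)), hs, hs]
  · have h1 := real_biUnion_le (PP nu (Sym2 (VT D J M))) (Finset.univ.erase a)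
      (fun b => {ω | ω (eT J M (b :: c :: w)) ∈ Mu T}) (p ^ 2)
      (fun a _ => by rw [real_atom nu _ (meas_Mu T), hm])
    have h2 : ((Finset.univ.erase a).card : ℝ) ≤ D := by
      exact_mod_cast (Finset.card_erase_le).trans (by simp)
    have h3 := le_measureReal_diff (μ := PP nu (Sym2 (VT D J M))) (s₁ := One J M X K (c :: w))
      (s₂ := ⋃ b ∈ Finset.univ.erase a, {ω | ω (eT J M (b :: c :: w)) ∈ Mu T})
      (measure_ne_top _ _)
    rw [diff_eq] at h3
    have h4 : r - D * p ^ 2 ≤ (PP nu (Sym2 (VT D J M))).real (One J M X K (c :: w) ∩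
        (⋃ b ∈ Finset.univ.erase a, {ω | ω (eT J M (b :: c :: w)) ∈ Mu T})ᶜ) := by
      nlinarith [sq_nonneg p]
    nlinarith [sq_nonneg s]
  · rw [disjoint_left]
    rintro e (rfl | rfl) (h | ⟨b, hb, h⟩)
    · simp only [ht_eT, List.length_cons] at h; omega
    · exact eT_ne c w b h
    · simp only [ht_eT, List.length_cons] at h; omega
    · exact hb (eT_inj h).symm
  · rintro ω ⟨h, -⟩
    exact ⟨X.sub 0 h.1.1, X.sub 2 h.2.1⟩

lemma dep_Deep (n : ℕ) : ∀ w : List (Fin D),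
    Dep {e | 2 * w.length + 1 ≤ ht e} (Deep J M X K n w) := by
  induction n with
  | zero => exact fun _ => Dep.univ
  | succ n ih =>
    refine fun w => Dep.iUnion fun z => Dep.iUnion fun _ =>
      ((dep_Pass X K _ _ _).mono fun _ h => h.1).inter ((ih _).mono fun e h => ?_)
    show 2 * w.length + 1 ≤ ht e
    simp only [mem_setOf_eq, List.length_cons] at h; omega

lemma real_Deep {π : ℝ} (hπ0 : 0 ≤ π)
    (hπ : ∀ c w a, (PP nu (Sym2 (VT D J M))).real (Pass J M X K (c :: w) a) ≤ π) (n : ℕ) :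
    ∀ w : List (Fin D), (PP nu (Sym2 (VT D J M))).real (Deep J M X K n w) ≤ (D ^ 2 * π) ^ n := by
  induction n with
  | zero => intro w; simp [Deep]
  | succ n ih =>
    intro w
    refine (real_biUnion_le _ _ _ (π * (D ^ 2 * π) ^ n) fun z _ => ?_).trans (le_of_eq ?_)
    · rw [real_inter nu _ (dep_Pass X K _ _ _) (dep_Deep X K n _)]
      · exact mul_le_mul (hπ _ _ _) (ih _) measureReal_nonneg hπ0
      · rw [disjoint_left]
        intro e h h'
        simp only [mem_setOf_eq, List.length_cons] at h h'; omega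
    · simp; ring

variable {X K} {ω : Sym2 (VT D J M) → ℕ → ℝ}

lemma blocked (hg : Gen T ω) {c a : Fin D} {w : List (Fin D)} (h : ω ∈ Block J M X K (c :: w) a)
    {v : VT D J M} (hv : ¬ c :: w <:+ v.1) {τ₀ τ : ℝ} :
    ¬ ReflTransGen (Step (GG D J M) T ω) (v, τ₀) ((a :: c :: w, none), τ) := by
  obtain ⟨⟨h1, h2⟩, h3, h4⟩ := h
  set u := c :: w with hu
  obtain ⟨j, -, h3, h5⟩ := mem_iUnion₂.1 h3
  obtain ⟨⟨k, γ⟩, hz, h3⟩ := mem_iUnion₂.1 h3
  obtain ⟨-, hγ, h0⟩ := mem_Cyc.1 hz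
  simp only at hγ h0 h3
  have hA : ∀ x ∈ range (ph (M := M) u j ∘ γ), x.1 = u := by rintro _ ⟨i, rfl⟩; rfl
  have hw : ((u, none) : VT D J M) ∈ range (ph u j ∘ γ) := ⟨0, by simp [h0]⟩
  have e0 : (ph (M := M) u j ∘ γ) 0 = (u, none) := by simp [h0]
  have q1 := (h3.1 0).1
  have q3 := (h3.1 (-1)).1
  simp only [Iv, if_true] at q1
  rw [Iv, if_neg (neg_ne_zero.2 zm_one), if_pos rfl, neg_add_cancel] at q3
  refine chord hg (Equiv.addRight (1 : ZMod (k + 3)))
    (fun i h => zm_two (by simpa [add_assoc] using h)) (ph u j ∘ γ) ((ph_inj u j).comp hγ)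
    (fun i => adj_ph u j (hγ.ne (succ_ne i))) (fun i => Ch.op (X.sub 1) (X.sub 3) h3 i)
    (fun i => Sg_not_Mu (h3.1 i)) (fun i i' h ho => Ch.int h3 (fun e => h.ne (by rw [e])) ho)
    (uni hg hw hA (Sg_not_Mu h1) (fun b => ?_) fun j' => ?_) 0
    (fun h => hv (by rw [hA v h])) (fun h => ?_) (fun x hx y hy t hr hb => ?_)
    (t' := ω (eT J M (a :: u)) 0) ?_ ?_ ?_
  · by_cases hb : b = a
    · rw [hb]; exact Sg_not_Mu h2
    · exact fun h => h4 (mem_iUnion₂.2 ⟨b, by simp [hb], h⟩)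
  · by_cases hj : j' = j
    · rw [hj, range_comp, preimage_image_eq _ (ph_inj u j)]; exact h3.2.1
    · have : ph (M := M) u j' ⁻¹' range (ph u j ∘ γ) = {none} := by
        ext x
        cases x with
        | none => simpa using hw
        | some x =>
          simp only [mem_preimage, mem_range, Function.comp, mem_singleton_iff, reduceCtorEq,
            iff_false, not_exists]
          intro i hi
          cases hγi : γ i <;> simp [ph, hγi, Ne.symm hj] at hi
      rw [this]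
      exact fun h => h5 (mem_iUnion₂.2 ⟨j', by simp [hj], h⟩)
  · have := congrArg List.length (hA _ h); simp at this
  · obtain ⟨rfl, rfl⟩ := cut hb.1 (by rw [hA x hx]) (out_closed hw hr hv)
    refine ⟨e0.symm, ?_⟩
    rw [hb.single hg (Sg_not_Mu h1)]
    exact X.lt 0 1 (by decide) _ h1.1 _ q1
  · rw [e0]
    exact (bar_of_op (adj_tree a u) (X.sub 2 h2.1)).symm
  · exact X.lt 1 2 (by decide) _ q1 _ h2.1
  · have := X.lt 2 3 (by decide) _ h2.1 _ q3
    simpa using this

lemma deep_of_reach (hg : Gen T ω) {v x : VT D J M} {τ₀ τ : ℝ}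
    (h : ReflTransGen (Step (GG D J M) T ω) (v, τ₀) (x, τ)) (n : ℕ) :
    ∀ w : List (Fin D), w <:+ x.1 → v.1.length ≤ w.length → w.length + 2 * n ≤ x.1.length →
      ω ∈ Deep J M X K n w := by
  induction n with
  | zero => intro w _ _ _; trivial
  | succ n ih =>
    rintro w ⟨t, ht⟩ h1 h2
    have hl := congrArg List.length ht
    rcases List.eq_nil_or_concat t with rfl | ⟨t, c, rfl⟩
    · simp at hl; omega
    rcases List.eq_nil_or_concat t with rfl | ⟨t, a, rfl⟩
    · simp at hl; omega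
    have s2 : a :: c :: w <:+ x.1 := ⟨t, by rw [← ht]; simp⟩
    have s1 : c :: w <:+ x.1 := (List.suffix_cons _ _).trans s2
    have n1 : ¬ c :: w <:+ v.1 := fun h => by have := h.length_le; simp at this; omega
    have n2 : ¬ a :: c :: w <:+ v.1 := fun h => n1 ((List.suffix_cons _ _).trans h)
    obtain ⟨o2, τ', hr⟩ := cross hg h n2 s2
    refine mem_iUnion₂.2 ⟨(c, a), Finset.mem_univ _,
      ⟨⟨(cross hg h n1 s1).1, o2⟩, fun hb => blocked hg hb n1 hr⟩, ih _ s2 ?_ ?_⟩
    · simp; omega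
    · simp; omega

theorem sub (X : Win T) (K : ℕ) (hT : 0 < T) {π : ℝ} (hπ0 : 0 ≤ π) (hπ1 : D ^ 2 * π < 1)
    (hπ : ∀ c w a, (PP nu (Sym2 (VT D J M))).real (Pass J M X K (c :: w) a) ≤ π) :
    ∀ᵐ ω ∂(law (VT D J M)), ∀ v, (cycle (GG D J M) T ω v).Finite := by
  have h0 : ∀ᵐ ω ∂(PP nu (Sym2 (VT D J M))), ∀ w : List (Fin D), ∃ n, ω ∉ Deep J M X K n w := by
    refine ae_all_iff.2 fun w => ?_
    rw [ae_iff, ← measureReal_eq_zero_iff]
    refine le_antisymm ?_ measureReal_nonneg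
    refine ge_of_tendsto' (tendsto_pow_atTop_nhds_zero_of_lt_one (by positivity) hπ1) fun n => ?_
    refine (rmono fun ω h => ?_).trans (real_Deep X K hπ0 hπ n w)
    by_contra hn
    exact h ⟨n, hn⟩
  rw [law_eq]
  filter_upwards [h0, ae_gen T hT.le] with ω h1 hg v
  choose f hf using h1
  have hfin : ∀ n, {x : VT D J M | x.1.length < n}.Finite := fun n =>
    ((List.finite_length_lt (Fin D) n).prod finite_univ).subset fun x hx => ⟨hx, trivial⟩
  refine ((hfin v.1.length).union ((List.finite_length_eq (Fin D) v.1.length).biUnion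
    fun w _ => hfin (w.length + 2 * f w))).subset fun x hx => ?_
  by_cases hl : x.1.length < v.1.length
  · exact Or.inl hl
  · have e : (x.1.drop (x.1.length - v.1.length)).length = v.1.length := by simp; omega
    refine Or.inr (mem_biUnion (show _ ∈ {l : List (Fin D) | l.length = v.1.length} from e) ?_)
    by_contra hn
    exact hf _ (deep_of_reach hg hx _ _ (List.drop_suffix _ _) e.ge (not_lt.1 hn))

end Pool.Agent.H319Z.Stir
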