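import Pool.Agent.H319Z.Stir.Super
import Pool.Agent.H319Z.Stir.Sub

/-! Choice of the parameters. -/

set_option maxHeartbeats 400000

open MeasureTheory ProbabilityTheory Set Relation

namespace Pool.Agent.H319Z.Stir

/-- The time at which an edge carries a bar with probability `p`. -/
noncomputable def tm (p : ℝ) : ℝ := -Real.log (1 - p)

lemma exp_tm {p : ℝ} (h : p < 1) : Real.exp (-tm p) = 1 - p := by
  rw [tm, neg_neg, Real.exp_log (by linarith)]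

lemma tm_lt {p q : ℝ} (h : p < q) (hq : q < 1) : tm p < tm q :=
  neg_lt_neg (Real.log_lt_log (by linarith) (by linarith))

lemma tm_le {p q : ℝ} (h : p ≤ q) (hq : q < 1) : tm p ≤ tm q :=
  neg_le_neg (Real.log_le_log (by linarith) (by linarith))

lemma tm_zero : tm 0 = 0 := by simp [tm]

lemma tm_pos {p : ℝ} (h0 : 0 < p) (h : p < 1) : 0 < tm p := tm_zero ▸ tm_lt h0 h

/-- The four windows of equal probability. -/
noncomputable def win {p : ℝ} (h0 : 0 < p) (h : p < 1) : Win (tm p) where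
  Q i := Ioc (tm (i * p / 4)) (tm ((i + 1) * p / 4))
  meas _ := measurableSet_Ioc
  sub i t ht := by
    have : ((i : ℕ) : ℝ) + 1 ≤ 4 := by exact_mod_cast i.2
    exact ht.2.trans (tm_le (by nlinarith) h)
  lt i j hij s hs t ht := by
    have h1 : ((j : ℕ) : ℝ) + 1 ≤ 4 := by exact_mod_cast j.2
    have h2 : ((i : ℕ) : ℝ) + 1 ≤ (j : ℕ) := by exact_mod_cast hij
    exact (hs.2.trans (tm_le (by nlinarith) (by nlinarith))).trans_lt ht.1

section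
variable {p : ℝ} (h0 : 0 < p) (h : p < 1)
include h0 h

lemma op_tm : nu.real (Op (tm p)) = p := by rw [nu_Op (tm_pos h0 h).le, exp_tm h]; ring
lemma mu_tm : nu.real (Mu (tm p)) = p ^ 2 := by rw [nu_Mu (tm_pos h0 h).le, exp_tm h]; ring
lemma sg_tm : nu.real (Sg (tm p) (Iic (tm p))) = p * (1 - p) := by
  rw [nu_Sg (tm_pos h0 h).le measurableSet_Iic, ex1_Iic (tm_pos h0 h).le, exp_tm h]; ring
lemma sg_win (i : Fin 4) : nu.real (Sg (tm p) ((win h0 h).Q i)) = p * (1 - p) / 4 := by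
  have h1 : ((i : ℕ) : ℝ) + 1 ≤ 4 := by exact_mod_cast i.2
  have h2 : (0 : ℝ) ≤ (i : ℕ) := Nat.cast_nonneg _
  have h3 : ((i : ℕ) + 1) * p / 4 < 1 := by nlinarith
  have h4 : (i : ℕ) * p / 4 < 1 := by nlinarith
  rw [nu_Sg (tm_pos h0 h).le ((win h0 h).meas i), exp_tm h]
  show ex1.real (Ioc _ _) * _ = _
  rw [ex1_Ioc (tm_zero ▸ tm_le (by positivity) h4) (tm_le (by nlinarith) h3), exp_tm h3, exp_tm h4]
  ring

end

lemma pow_bound {g : ℝ} (h0 : 0 ≤ g) (h1 : g ≤ 1) (n : ℕ) : (1 - g) ^ n ≤ 1 / (1 + n * g) := by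
  rw [le_div_iff₀ (by positivity)]
  calc (1 - g) ^ n * (1 + n * g) ≤ (1 - g) ^ n * (1 + g) ^ n :=
        mul_le_mul_of_nonneg_left (one_add_mul_le_pow (by linarith) n) (pow_nonneg (by linarith) n)
    _ = ((1 - g) * (1 + g)) ^ n := by rw [mul_pow]
    _ ≤ 1 := pow_le_one₀ (by nlinarith) (by nlinarith)

theorem main : ∃ (D J M : ℕ) (T₁ T₂ : ℝ), 0 < T₁ ∧ T₁ < T₂ ∧ T₁ ∈ infTimes (GG D J M) ∧
    ∀ᵐ ω ∂(law (VT D J M)), ∀ v, (cycle (GG D J M) T₂ ω v).Finite := by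
  obtain ⟨M, hM⟩ : ∃ M : ℕ, (M : ℝ) + 1 = 10 ^ 100 := ⟨10 ^ 100 - 1, by norm_num⟩
  obtain ⟨K, hK⟩ : ∃ K : ℕ, (K : ℝ) + 2 = 10 ^ 22 := ⟨10 ^ 22 - 2, by norm_num⟩
  obtain ⟨J, hJ⟩ : ∃ J : ℕ, (J : ℝ) = 10 ^ 77 := ⟨10 ^ 77, by norm_num⟩
  obtain ⟨D, hD⟩ : ∃ D : ℕ, (D : ℝ) = 10 ^ 100 + 3 * 10 ^ 94 := ⟨10 ^ 100 + 3 * 10 ^ 94, by norm_num⟩
  have hK' : (K : ℝ) = 10 ^ 22 - 2 := by linarith
  have hN : (Fintype.card (Option (Fin M)) : ℝ) = 10 ^ 100 := by simpa using hM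
  set p₁ : ℝ := (1 - 1 / 10 ^ 6) / 10 ^ 100 with hp₁
  set p₂ : ℝ := (1 - 1 / (4 * 10 ^ 22)) / 10 ^ 100 with hp₂
  have a1 : 0 < p₁ := by rw [hp₁]; norm_num
  have b1 : p₁ < 1 := by rw [hp₁]; norm_num
  have a2 : 0 < p₂ := by rw [hp₂]; norm_num
  have b2 : p₂ < 1 := by rw [hp₂]; norm_num
  refine ⟨D, J, M, tm p₁, tm p₂, tm_pos a1 b1, tm_lt (by rw [hp₁, hp₂]; norm_num) b2, ?_, ?_⟩
  · have hg : (1 : ℝ) / (2 * 10 ^ 6 * (10 ^ 100 + 3 * 10 ^ 94)) ≤ 1 := by norm_num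
    refine super (g := 1 / (2 * 10 ^ 6 * (10 ^ 100 + 3 * 10 ^ 94))) (tm_pos a1 b1) ?_ (mu_tm a1 b1)
      (sg_tm a1 b1) (fun w j => real_Bad (δ := p₁ * 10 ^ 6) (a := 1) (ph_inj w j) (op_tm a1 b1)
        (mu_tm a1 b1) (by positivity) (by rw [hN, hp₁]; norm_num) {none} (by simp) le_rfl hN |>.trans'
        (by simp)) (by positivity) (by rw [hp₁]; norm_num) ?_
    · have : (2 : ℝ) ≤ D := by rw [hD]; norm_num
      exact_mod_cast this
    · have := pow_bound (by positivity) hg D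
      refine le_trans ?_ (mul_le_mul_of_nonneg_left
        (sub_le_sub_right (sub_le_sub_left this _) _) (by nlinarith))
      rw [hD, hJ, hp₁]; norm_num
  · have hδ : p₂ + Fintype.card (Option (Fin M)) * p₂ * (p₂ * (4 * 10 ^ 22)) ≤ p₂ * (4 * 10 ^ 22) := by
      rw [hN, hp₂]; norm_num
    refine sub (win a2 b2) K (tm_pos a2 b2)
      (π := p₂ ^ 2 - (p₂ * (1 - p₂)) ^ 2 / 16 * (J * (K * (p₂ * (1 - p₂)) / 64) / 2 - D * p₂ ^ 2))
      ?_ ?_ fun c w a => real_Pass _ _ (op_tm a2 b2) (mu_tm a2 b2) (sg_win a2 b2) c w a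
        (real_One _ _ _ (fun j => real_Bad (δ := p₂ * (4 * 10 ^ 22)) (a := 1) (ph_inj (c :: w) j)
          (op_tm a2 b2) (mu_tm a2 b2) (by positivity) hδ {none} (by simp) le_rfl hN |>.trans'
          (by simp)) (by positivity) ?_ fun j => real_ChU (ph_inj _ j) ((win a2 b2).meas 1)
          ((win a2 b2).meas 3) ((win a2 b2).sub 1) ((win a2 b2).sub 3) (win_disj _) (op_tm a2 b2)
          (mu_tm a2 b2) (by positivity) hδ (sg_tm a2 b2) (sg_win a2 b2 1) (sg_win a2 b2 3) hN ?_ ?_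
          none)
    · rw [hD, hJ, hK', hp₂]; norm_num
    · rw [hD, hJ, hK', hp₂]; norm_num
    · rw [hJ, hp₂]; norm_num
    · rw [hK, hp₂]; norm_num
    · rw [hK, hp₂]; norm_num

end Pool.Agent.H319Z.Stir
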