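import Pool.Agent.H319Z.Stir.Graph

/-! Infinite cycles at the smaller parameter. -/

set_option maxHeartbeats 400000

open MeasureTheory ProbabilityTheory Set Relation

namespace Pool.Agent.H319Z.Stir

variable {D J M : ℕ} {T : ℝ}

variable (J M T) in
/-- The surroundings of `w` are trivial. -/
def Loc (w : List (Fin D)) : Set (Sym2 (VT D J M) → ℕ → ℝ) :=
  {ω | (∀ a, ω (eT J M (a :: w)) ∉ Mu T) ∧ ∀ j, ω ∉ Bad (ph w j) T {none}}

variable (J M T) in
/-- A clean path of length `n` below `w`. -/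
def Gn : ℕ → List (Fin D) → Set (Sym2 (VT D J M) → ℕ → ℝ)
  | 0, w => {ω | ω (eT J M w) ∈ Sg T (Iic T)}
  | n + 1, w => {ω | ω (eT J M w) ∈ Sg T (Iic T) ∧ ω ∈ Loc J M T w ∧ ∃ a, ω ∈ Gn n (a :: w)}

variable (J M) in
/-- Pairs in the subtree below `w`. -/
def Below (w : List (Fin D)) : Set (Sym2 (VT D J M)) := In {x | w <:+ x.1}

variable (J M) in
/-- The same with the edge above `w`. -/
def Sub (w : List (Fin D)) : Set (Sym2 (VT D J M)) := insert (eT J M w) (Below J M w)

lemma eT_below (a : Fin D) (w : List (Fin D)) : eT J M (a :: w) ∈ Below J M w :=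
  mk_mem_In.2 ⟨List.suffix_cons a w, List.suffix_refl w⟩

lemma Sub_sub (a : Fin D) (w : List (Fin D)) : Sub J M (a :: w) ⊆ Below J M w :=
  insert_subset (eT_below a w) (In_mono fun _ hx => (List.suffix_cons a w).trans hx)

lemma eT_not_below (a : Fin D) (w : List (Fin D)) : eT J M (a :: w) ∉ Below J M (a :: w) :=
  fun h => not_cons_suffix a w (mk_mem_In.1 h).2

lemma Sub_disj {u u' : List (Fin D)} (h : ¬ u <:+ u') (h' : ¬ u' <:+ u) :
    Disjoint (Sub J M u) (Sub J M u') := by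
  rw [disjoint_left]
  rintro e (rfl | he) (he' | he')
  · simp only [eT, Sym2.eq_iff, Prod.mk.injEq, and_true] at he'
    rcases he' with e | e
    · exact h (e.1 ▸ List.suffix_refl u)
    · exact h (by rw [e.1]; exact List.tail_suffix u')
  · exact h' (mk_mem_In.1 he').1
  · rw [he'] at he; exact h (mk_mem_In.1 he).1
  · induction e using Sym2.ind with
    | _ x y =>
      rcases List.suffix_or_suffix_of_suffix (mk_mem_In.1 he).1 (mk_mem_In.1 he').1 with e | e
      · exact h e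
      · exact h' e

lemma dep_Loc (w : List (Fin D)) : Dep (Below J M w) (Loc J M T w) := by
  refine Dep.and (Dep.all fun a => Dep.not (Dep.atom (eT_below a w) (meas_Mu T)))
    (Dep.all fun j => Dep.not ((dep_Bad _).mono ?_).mem)
  rintro _ ⟨x, y, -, -, rfl⟩
  exact mk_mem_In.2 ⟨List.suffix_refl w, List.suffix_refl w⟩

lemma dep_Gn (n : ℕ) : ∀ w : List (Fin D), Dep (Sub J M w) (Gn J M T n w) := by
  induction n with
  | zero => exact fun w => Dep.atom (mem_insert _ _) (meas_Sg T measurableSet_Iic)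
  | succ n ih =>
    exact fun w => Dep.and (Dep.atom (mem_insert _ _) (meas_Sg T measurableSet_Iic))
      (Dep.and ((dep_Loc w).mono (subset_insert _ _)).mem
        (Dep.ex fun a => ((ih (a :: w)).mono ((Sub_sub a w).trans (subset_insert _ _))).mem))

lemma Gn_anti (n : ℕ) : ∀ w : List (Fin D), Gn J M T (n + 1) w ⊆ Gn J M T n w := by
  induction n with
  | zero => exact fun w ω h => h.1
  | succ n ih =>
    rintro w ω ⟨h1, h2, a, h3⟩
    exact ⟨h1, h2, a, ih _ h3⟩

lemma Gn_anti' (w : List (Fin D)) : Antitone fun n => Gn J M T n w :=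
  antitone_nat_of_succ_le fun n => Gn_anti n w

lemma real_not_Loc {p q : ℝ} (hm : nu.real (Mu T) = p ^ 2) (w : List (Fin D))
    (hq : ∀ j, (PP nu (Sym2 (VT D J M))).real (Bad (ph w j) T {none}) ≤ q) :
    (PP nu (Sym2 (VT D J M))).real (Loc J M T w)ᶜ ≤ D * p ^ 2 + J * q := by
  have hsub : (Loc J M T w)ᶜ ⊆ (⋃ a ∈ (Finset.univ : Finset (Fin D)),
      {ω | ω (eT J M (a :: w)) ∈ Mu T}) ∪
      ⋃ j ∈ (Finset.univ : Finset (Fin J)), Bad (ph w j) T {none} := by
    intro ω h
    by_contra hn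
    simp only [Finset.mem_univ, iUnion_true, mem_union, mem_iUnion, mem_setOf_eq, not_or,
      not_exists] at hn
    exact h hn
  refine (rmono hsub).trans ((measureReal_union_le _ _).trans (add_le_add ?_ ?_))
  · simpa using real_biUnion_le (PP nu (Sym2 (VT D J M))) Finset.univ
      (fun a => {ω | ω (eT J M (a :: w)) ∈ Mu T}) (p ^ 2)
      (fun a _ => by rw [real_atom nu _ (meas_Mu T), hm])
  · simpa using real_biUnion_le (PP nu (Sym2 (VT D J M))) Finset.univ _ q (fun j _ => hq j)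

lemma real_Gn {p q s g : ℝ} (hm : nu.real (Mu T) = p ^ 2) (hs : nu.real (Sg T (Iic T)) = s)
    (hq : ∀ w j, (PP nu (Sym2 (VT D J M))).real (Bad (ph w j) T {none}) ≤ q) (hg1 : g ≤ s)
    (hg2 : g ≤ s * (1 - (1 - g) ^ D - (D * p ^ 2 + J * q))) (n : ℕ) :
    ∀ (a : Fin D) (w : List (Fin D)), g ≤ (PP nu (Sym2 (VT D J M))).real (Gn J M T n (a :: w)) := by
  have hs0 : 0 ≤ s := hs ▸ measureReal_nonneg
  induction n with
  | zero => intro a w; rw [Gn, real_atom nu _ (meas_Sg T measurableSet_Iic), hs]; exact hg1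
  | succ n ih =>
    intro a w
    set u := a :: w with hu
    have e : Gn J M T (n + 1) u = {ω | ω (eT J M u) ∈ Sg T (Iic T)} ∩
        ((Loc J M T u)ᶜ ∪ ⋂ b ∈ (Finset.univ : Finset (Fin D)), (Gn J M T n (b :: u))ᶜ)ᶜ := by
      ext ω; simp [Gn]
    have d : Dep (Below J M u) ((Loc J M T u)ᶜ ∪
        ⋂ b ∈ (Finset.univ : Finset (Fin D)), (Gn J M T n (b :: u))ᶜ) :=
      (dep_Loc u).compl.union (Dep.iInter fun b => Dep.iInter fun _ =>
        ((dep_Gn n _).mono (Sub_sub b u)).compl)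
    rw [e, real_inter nu (S := {eT J M u}) (disjoint_singleton_left.2 (eT_not_below a w))
      (Dep.atom (mem_singleton _) (meas_Sg T measurableSet_Iic)) d.compl,
      real_atom nu _ (meas_Sg T measurableSet_Iic), hs, probReal_compl_eq_one_sub d.meas]
    refine hg2.trans (mul_le_mul_of_nonneg_left ?_ hs0)
    have b1 := real_not_Loc hm u (hq u)
    have b2 : (PP nu (Sym2 (VT D J M))).real
        (⋂ b ∈ (Finset.univ : Finset (Fin D)), (Gn J M T n (b :: u))ᶜ) ≤ (1 - g) ^ D := by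
      rw [real_biInter nu _ (fun b => Sub J M (b :: u)) _ _ fun b _ => (dep_Gn n _).compl]
      · calc _ ≤ ∏ _b : Fin D, (1 - g) :=
              Finset.prod_le_prod (fun _ _ => measureReal_nonneg) fun b _ => by
                rw [probReal_compl_eq_one_sub (dep_Gn n _).meas]; linarith [ih b u]
          _ = _ := by simp
      · intro b _ c _ hbc
        refine Sub_disj (fun h => hbc ?_) (fun h => hbc ?_)
        · exact (List.cons.inj (h.eq_of_length rfl)).1
        · exact (List.cons.inj (h.eq_of_length rfl)).1.symm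
    have := measureReal_union_le (μ := PP nu (Sym2 (VT D J M))) (Loc J M T u)ᶜ
      (⋂ b ∈ (Finset.univ : Finset (Fin D)), (Gn J M T n (b :: u))ᶜ)
    linarith

lemma real_Ginf {g : ℝ} (u : List (Fin D))
    (h : ∀ n, g ≤ (PP nu (Sym2 (VT D J M))).real (Gn J M T n u)) :
    g ≤ (PP nu (Sym2 (VT D J M))).real (⋂ n, Gn J M T n u) := by
  have := tendsto_measure_iInter_atTop (μ := PP nu (Sym2 (VT D J M)))
    (fun n => (dep_Gn (T := T) n u).meas.nullMeasurableSet) (Gn_anti' u) ⟨0, measure_ne_top _ _⟩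
  exact ge_of_tendsto' ((ENNReal.tendsto_toReal (measure_ne_top _ _)).comp this) h

lemma Ginf_step {u : List (Fin D)} {ω : Sym2 (VT D J M) → ℕ → ℝ} (h : ω ∈ ⋂ n, Gn J M T n u) :
    ∃ a, ω ∈ ⋂ n, Gn J M T n (a :: u) := by
  by_contra hn
  simp only [mem_iInter, not_exists, not_forall] at hn h
  choose f hf using hn
  obtain ⟨-, -, a, ha⟩ := h (Finset.univ.sup f + 1)
  exact hf a (Gn_anti' _ (Finset.le_sup (Finset.mem_univ a)) ha)

lemma cycle_of_Ginf {u : List (Fin D)} {ω : Sym2 (VT D J M) → ℕ → ℝ} (hg : Gen T ω)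
    (hex : ¬ ∃ f : ℕ → VT D J M × ℝ, ∀ n, Jump (GG D J M) T ω (f n) (f (n + 1)))
    (h : ω ∈ ⋂ n, Gn J M T n u) : (cycle (GG D J M) T ω (u, none)).Infinite := by
  choose nx hnx using fun (u : List (Fin D)) (h : ω ∈ ⋂ n, Gn J M T n u) => Ginf_step h
  let w : ℕ → {u : List (Fin D) // ω ∈ ⋂ n, Gn J M T n u} := fun i =>
    Nat.rec ⟨u, h⟩ (fun _ v => ⟨nx v.1 v.2 :: v.1, hnx v.1 v.2⟩) i
  have hw : ∀ i, (w (i + 1)).1 = nx (w i).1 (w i).2 :: (w i).1 := fun _ => rfl
  have hlen : StrictMono fun i => (w i).1.length :=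
    strictMono_nat_of_lt_succ fun i => by rw [hw]; simp
  refine clean_ray hg nbr_finite hex (fun i => ((w i).1, none)) (fun i j h => hlen.injective ?_)
    (fun i => ?_) fun i => ?_
  · simp only [(Prod.mk.inj h).1]
  · obtain ⟨h1, h2, -⟩ := mem_iInter.1 (w i).2 1
    refine uni hg (w := (w i).1) rfl (by rintro x rfl; rfl) (Sg_not_Mu h1) h2.1
      fun j => ?_
    have : ph (M := M) (w i).1 j ⁻¹' {((w i).1, none)} = {none} := by
      ext x; cases x <;> simp [ph]
    rw [this]; exact h2.2 j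
  · have h1 : ω (eT J M (w (i + 1)).1) ∈ Sg T (Iic T) := mem_iInter.1 (w (i + 1)).2 0
    rw [hw] at h1 ⊢
    exact ⟨_, (bar_of_op (adj_tree _ _) h1.1).symm⟩

theorem super {p q s g : ℝ} (hT : 0 < T) (hD : 2 ≤ D) (hm : nu.real (Mu T) = p ^ 2)
    (hs : nu.real (Sg T (Iic T)) = s)
    (hq : ∀ w j, (PP nu (Sym2 (VT D J M))).real (Bad (ph w j) T {none}) ≤ q) (hg0 : 0 < g)
    (hg1 : g ≤ s) (hg2 : g ≤ s * (1 - (1 - g) ^ D - (D * p ^ 2 + J * q))) :
    T ∈ infTimes (GG D J M) := by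
  refine ⟨hT, ?_⟩
  let a0 : Fin D := ⟨0, by omega⟩
  let a1 : Fin D := ⟨1, by omega⟩
  let u : ℕ → List (Fin D) := fun i => a1 :: List.replicate i a0
  have hu : ∀ i j, u i <:+ u j → i = j := by
    intro i j h
    rcases List.suffix_cons_iff.1 h with h | h
    · simpa [u] using congrArg List.length h
    · have := List.eq_of_mem_replicate (h.subset (List.mem_cons_self))
      simp [a0, a1] at this
  have hs1 : s ≤ 1 := hs ▸ measureReal_le_one
  have h0 : ∀ᵐ ω ∂(PP nu (Sym2 (VT D J M))), ∃ i, ω ∈ ⋂ n, Gn J M T n (u i) := by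
    rw [ae_iff, ← measureReal_eq_zero_iff]
    refine le_antisymm ?_ measureReal_nonneg
    refine ge_of_tendsto' (tendsto_pow_atTop_nhds_zero_of_lt_one (r := 1 - g) (by linarith)
      (by linarith)) fun N => ?_
    have d : ∀ i, Dep (Sub J M (u i)) (⋂ n, Gn J M T n (u i)) := fun i =>
      Dep.iInter fun n => dep_Gn n _
    calc _ ≤ (PP nu (Sym2 (VT D J M))).real
          (⋂ i ∈ Finset.range N, (⋂ n, Gn J M T n (u i))ᶜ) := by
          refine rmono fun ω h => ?_
          simp only [mem_iInter₂]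
          exact fun i _ hi => h ⟨i, hi⟩
      _ = _ := real_biInter nu _ (fun i => Sub J M (u i)) _
          (fun i _ j _ h => Sub_disj (fun e => h (hu _ _ e)) fun e => h (hu _ _ e).symm)
          fun i _ => (d i).compl
      _ ≤ ∏ _i ∈ Finset.range N, (1 - g) :=
          Finset.prod_le_prod (fun _ _ => measureReal_nonneg) fun i _ => by
            rw [probReal_compl_eq_one_sub (d i).meas]
            linarith [real_Ginf (u i) fun n => real_Gn hm hs hq hg1 hg2 n _ _]
      _ = _ := by simp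
  have h1 := wellDefined (nbr_finite (D := D) (J := J) (M := M)) nbr_card T hT
  rw [law_eq] at h1 ⊢
  filter_upwards [h0, h1, ae_gen T hT.le] with ω ⟨i, hi⟩ h2 h3 using ⟨_, cycle_of_Ginf h3 h2 hi⟩

end Pool.Agent.H319Z.Stir
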